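import Pool.Agent.K9h59.PA.Abs
import Pool.Agent.K9h19.CR.PW
import Pool.Agent.H373R2.T7.LamZ2

/-!
# From the grid to all lengths, and the exceptional sets
-/

set_option autoImplicit false

namespace Pool.Agent.K9h19.SP

open Finset Polynomial
open Pool.Agent.H373R2.T7 (lamz Vz pz Vz_pos Vz_inv_small)
open Pool.Agent.K9h59.PA (cvl hq SzP SzP_bd gridl_step pp_both near_lam)
open Pool.Agent.R460.SQ (DZ thp ppw ppw_nn)
open Pool.Agent.R460.SB (fv)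

lemma step_sp {α γ n : ℤ} {X N y z s Y : ℕ} {L : ℝ} (hL : L = Real.log N) (hL1 : 1 ≤ L)
    (hN : (α.natAbs + γ.natAbs + 1) * X ≤ N) (hn : |n| ≤ X) (hs : 1 ≤ s)
    (hV : (Vz z)⁻¹ ≤ L) (hyY : y ≤ Y) (hY : Y ^ 2 ≤ X) {e₁ e₂ e₃ : ℝ}
    (h1 : |∑ m ∈ Icc 1 (y / s * s), ArithmeticFunction.vonMangoldt m *
      ArithmeticFunction.vonMangoldt (fv α γ n m).natAbs - SzP α γ n z * (y / s * s : ℕ)| ≤ e₁)
    (h2 : ∑ m ∈ Icc 1 Y, ppw m ≤ e₂) (h3 : ∑ m ∈ Icc 1 Y, ppw (fv α γ n m).natAbs ≤ e₃) :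
    |∑ m ∈ Icc 1 y, thp m * thp (fv α γ n m).natAbs - SzP α γ n z * y| ≤
      e₁ + 2 * (s * L ^ 2) + L * e₂ + L * e₃ := by
  have hy : y ^ 2 ≤ X := (Nat.pow_le_pow_left hyY 2).trans hY
  have g1 := gridl_step (z := z) hN hn hy hs (by rw [← hL]; exact hV) (by rw [← hL]; exact hL1)
  have g2 := pp_both hN hn hyY hY
  rw [← hL] at g1 g2
  obtain ⟨P, hP⟩ : ∃ P, P = ∑ m ∈ Icc 1 y, thp m * thp (fv α γ n m).natAbs := ⟨_, rfl⟩
  obtain ⟨Q, hQ⟩ : ∃ Q, Q = ∑ m ∈ Icc 1 y, ArithmeticFunction.vonMangoldt m *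
    ArithmeticFunction.vonMangoldt (fv α γ n m).natAbs := ⟨_, rfl⟩
  rw [← hP] at g2 ⊢
  rw [← hQ] at g1 g2
  have e : P - SzP α γ n z * y = (P - Q) + (Q - SzP α γ n z * y) := by ring
  rw [e]
  have hL0 : 0 ≤ L := by linarith
  have k2 := mul_le_mul_of_nonneg_left h2 hL0
  have k3 := mul_le_mul_of_nonneg_left h3 hL0
  refine (abs_add_le _ _).trans ?_
  linarith

/-- Chebyshev's inequality -/
lemma cheb_sp {S : Finset ℤ} {f : ℤ → ℝ} {R t : ℝ} (ht : 0 < t) (hR : ∑ n ∈ S, f n ^ 2 ≤ R) :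
    ((S.filter (fun n => t < f n)).card : ℝ) ≤ R / t ^ 2 := by
  rw [le_div_iff₀ (by positivity)]
  calc ((S.filter (fun n => t < f n)).card : ℝ) * t ^ 2 = ∑ _n ∈ S.filter (fun n => t < f n), t ^ 2 := by
        rw [sum_const, nsmul_eq_mul]
    _ ≤ ∑ n ∈ S.filter (fun n => t < f n), f n ^ 2 := by
        apply sum_le_sum
        intro n hn
        exact pow_le_pow_left₀ ht.le (mem_filter.1 hn).2.le 2
    _ ≤ ∑ n ∈ S, f n ^ 2 := sum_le_sum_of_subset_of_nonneg (filter_subset _ _) fun _ _ _ => sq_nonneg _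
    _ ≤ R := hR

lemma card_bU {ι : Type} (P : Finset ι) (f : ι → Finset ℤ) {R : ℝ}
    (h : ∀ p ∈ P, ((f p).card : ℝ) ≤ R) : ((P.biUnion f).card : ℝ) ≤ P.card * R := by
  classical
  calc ((P.biUnion f).card : ℝ) ≤ ((∑ p ∈ P, (f p).card : ℕ) : ℝ) := by exact_mod_cast card_biUnion_le
    _ = ∑ p ∈ P, ((f p).card : ℝ) := by push_cast; rfl
    _ ≤ ∑ _p ∈ P, R := sum_le_sum h
    _ = P.card * R := by rw [sum_const, nsmul_eq_mul]

lemma log_nat_le {N : ℕ} (hN : 2 ≤ N) {L : ℝ} (hL : L = Real.log N) (hL1 : 100 ≤ L) :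
    ((Nat.log 2 N + 2 : ℕ) : ℝ) ≤ L ^ 2 := by
  have h1 : (2 : ℝ) ^ (Nat.log 2 N) ≤ N := by
    have h4 : 2 ^ (Nat.log 2 N) ≤ N := Nat.pow_log_le_self 2 (by omega)
    exact_mod_cast h4
  have h2 : (Nat.log 2 N : ℝ) * Real.log 2 ≤ L := by
    rw [hL, ← Real.log_pow]
    exact Real.log_le_log (by positivity) h1
  have h3 := Real.log_two_gt_d9
  have h4 : (0 : ℝ) ≤ (Nat.log 2 N : ℝ) := Nat.cast_nonneg _
  push_cast
  nlinarith

/-- the grid -/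
lemma grid_sp {y G : ℕ} (hG : 1 ≤ G) (hGy : G ≤ y) : ∃ k : ℕ, k ≤ Nat.log 2 y ∧ 2 ^ k * G ≤ y ∧
    y / 2 ^ k < 2 * G ∧ y < y / 2 ^ k * 2 ^ k + 2 ^ k := by
  refine ⟨Nat.log 2 (y / G), Nat.log_mono_right (Nat.div_le_self _ _), ?_, ?_, ?_⟩
  · have h1 : 2 ^ Nat.log 2 (y / G) ≤ y / G :=
      Nat.pow_log_le_self 2 (by have := Nat.div_pos hGy hG; omega)
    calc 2 ^ Nat.log 2 (y / G) * G ≤ y / G * G := Nat.mul_le_mul_right _ h1
      _ ≤ y := Nat.div_mul_le_self _ _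
  · have h1 : y / G < 2 ^ (Nat.log 2 (y / G) + 1) := Nat.lt_pow_succ_log_self (by norm_num) _
    rw [Nat.div_lt_iff_lt_mul (by omega)] at h1
    rw [Nat.div_lt_iff_lt_mul (by positivity)]
    rw [pow_succ] at h1
    calc y < 2 ^ Nat.log 2 (y / G) * 2 * G := h1
      _ = 2 * G * 2 ^ Nat.log 2 (y / G) := by ring
  · have h1 := Nat.div_add_mod y (2 ^ Nat.log 2 (y / G))
    have h2 := Nat.mod_lt y (show 0 < 2 ^ Nat.log 2 (y / G) by positivity)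
    nlinarith

end Pool.Agent.K9h19.SP
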