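import Pool.Agent.K9h19.SP.MS1
import Pool.Agent.K9h19.SP.CT1

/-!
# The exceptional sets
-/

set_option autoImplicit false

namespace Pool.Agent.K9h19.SP

open Finset Polynomial
open Pool.Agent.H373R2.T7 (lamz Vz pz Vz_pos Vz_inv_small)
open Pool.Agent.K9h59.PA (cvl hq hq_deg SzP SzP_bd gridl_step pp_both near_lam)
open Pool.Agent.R460.SQ (DZ thp ppw ppw_nn sum_ppw)
open Pool.Agent.R460.SB (fv fv_abs pp_count)
open Pool.Agent.Y614.GJ.Core (ev_log)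

/-- the property of the integer `n` -/
def GoodS (α γ : ℤ) (C D X z : ℕ) (n : ℤ) : Prop :=
  ∀ y : ℕ, (X : ℝ) ^ (1 / 6 : ℝ) * Real.log X ^ D ≤ y → y ^ 2 ≤ X →
    |∑ m ∈ Icc 1 y, thp m * thp (fv α γ n m).natAbs - SzP α γ n z * y| ≤ y / Real.log X ^ C

/-- the grid -/
def grd (N G : ℕ) : Finset (ℕ × ℕ) := range (Nat.log 2 N + 2) ×ˢ range (2 * G)

/-- the exceptional set of the correlations -/
noncomputable def exA (h : ℤ[X]) (z N M G D₁ C₁ : ℕ) (σ : ℤ) : Finset ℤ :=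
  ((grd N G).filter (fun p : ℕ × ℕ => (N : ℝ) ^ (1 / 3 : ℝ) * Real.log N ^ D₁ ≤ ((p.2 * 2 ^ p.1 : ℕ) : ℝ) ^ 2 ∧
    (p.2 * 2 ^ p.1) ^ 2 ≤ N)).biUnion
    (fun p => (Icc (-(M : ℤ)) M).filter (fun n => ((p.2 * 2 ^ p.1 : ℕ) : ℝ) / Real.log N ^ C₁ <
      ‖cvl h (DZ z) (p.2 * 2 ^ p.1) N (σ * n)‖))

lemma exA_card {h : ℤ[X]} {z N M G D₁ C₁ A₁ : ℕ} {σ : ℤ} (hσ : σ = 1 ∨ σ = -1) {L : ℝ} (hL : L = Real.log N)
    (hL1 : 1 ≤ L) (hN : 1 ≤ N)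
    (hms : ∀ y : ℕ, (N : ℝ) ^ (1 / 3 : ℝ) * L ^ D₁ ≤ (y : ℝ) ^ 2 → y ^ 2 ≤ N → ∀ S : Finset ℤ,
      ∑ n ∈ S, ‖cvl h (DZ z) y N n‖ ^ 2 ≤ N * (y : ℝ) ^ 2 / L ^ A₁) :
    ((exA h z N M G D₁ C₁ σ).card : ℝ) ≤ (L ^ 2 * (2 * G)) * (N * L ^ (2 * C₁) / L ^ A₁) ∨
      L < 100 ∨ N < 2 := by
  by_cases hL100 : 100 ≤ L
  swap
  · right; left; linarith
  by_cases hN2 : 2 ≤ N
  swap
  · right; right; omega
  left
  have hN0 : (0 : ℝ) < N := by exact_mod_cast hN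
  have hL0 : 0 < L := by linarith
  have hR0 : 0 ≤ N * L ^ (2 * C₁) / L ^ A₁ := by positivity
  unfold exA
  rw [← hL]
  refine (card_bU _ _ (R := N * L ^ (2 * C₁) / L ^ A₁) ?_).trans ?_
  · intro p hp
    rw [mem_filter] at hp
    obtain ⟨y, hy⟩ : ∃ y, y = p.2 * 2 ^ p.1 := ⟨_, rfl⟩
    rw [← hy] at hp ⊢
    have hy0 : (0 : ℝ) < y := by
      have h1 : 0 < (N : ℝ) ^ (1 / 3 : ℝ) * L ^ D₁ := by positivity
      have h2 := lt_of_lt_of_le h1 hp.2.1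
      by_contra h3
      have h4 : (y : ℝ) = 0 := le_antisymm (not_lt.1 h3) (Nat.cast_nonneg _)
      rw [h4] at h2
      norm_num at h2
    have hinj : Function.Injective (fun n : ℤ => σ * n) := by
      intro a b hab
      have hab' : σ * a = σ * b := hab
      rcases hσ with rfl | rfl <;> omega
    have h1 : ∑ n ∈ Icc (-(M : ℤ)) M, ‖cvl h (DZ z) y N (σ * n)‖ ^ 2 ≤ N * (y : ℝ) ^ 2 / L ^ A₁ := by
      have h2 := hms y hp.2.1 hp.2.2 ((Icc (-(M : ℤ)) M).image (fun n => σ * n))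
      rw [sum_image (fun a _ b _ hab => hinj hab)] at h2
      exact h2
    have h3 := cheb_sp (S := Icc (-(M : ℤ)) M) (f := fun n => ‖cvl h (DZ z) y N (σ * n)‖)
      (t := (y : ℝ) / L ^ C₁) (by positivity) h1
    refine h3.trans (le_of_eq ?_)
    have e : L ^ (2 * C₁) = (L ^ C₁) ^ 2 := by rw [← pow_mul]; congr 1; ring
    rw [e]
    field_simp
  · apply mul_le_mul_of_nonneg_right _ hR0
    have h1 : (((grd N G).filter (fun p : ℕ × ℕ => (N : ℝ) ^ (1 / 3 : ℝ) * L ^ D₁ ≤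
        ((p.2 * 2 ^ p.1 : ℕ) : ℝ) ^ 2 ∧ (p.2 * 2 ^ p.1) ^ 2 ≤ N)).card : ℝ) ≤ (grd N G).card := by
      exact_mod_cast card_filter_le _ _
    refine h1.trans ?_
    unfold grd
    rw [card_product, card_range, card_range]
    push_cast
    have h2 := log_nat_le hN2 hL hL100
    push_cast at h2
    apply mul_le_mul_of_nonneg_right h2 (by positivity)

/-- the exceptional set of the prime powers -/
noncomputable def exP (α γ : ℤ) (N M C₁ : ℕ) : Finset ℤ :=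
  ((range (Nat.log 2 N + 2)).filter (fun k : ℕ => (2 ^ k) ^ 2 ≤ 4 * M)).biUnion
    (fun k => (Icc (-(M : ℤ)) M).filter (fun n => ((2 ^ k : ℕ) : ℝ) / Real.log N ^ C₁ <
      ∑ m ∈ Icc 1 (2 ^ k), ppw (fv α γ n m).natAbs))

lemma exP_card {α γ : ℤ} {N M C₁ : ℕ} {L : ℝ} (hL : L = Real.log N)
    (hL100 : 100 ≤ L) (hN : 2 ≤ N) (hNM : (α.natAbs + γ.natAbs + 1) * (4 * M) ≤ N) :
    ((exP α γ N M C₁).card : ℝ) ≤ L ^ 2 * (4 * Real.sqrt N * L ^ (C₁ + 1)) := by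
  have hL0 : 0 < L := by linarith
  unfold exP
  rw [← hL]
  refine (card_bU _ _ (R := 4 * Real.sqrt N * L ^ (C₁ + 1)) ?_).trans ?_
  · intro k hk
    rw [mem_filter] at hk
    have hk0 : (0 : ℝ) < ((2 ^ k : ℕ) : ℝ) := by positivity
    have h1 := pp_count (α := α) (γ := γ) (X := 4 * M) (N := N) (Y := 2 ^ k) (by omega) hNM
      ((Icc (-(M : ℤ)) M).filter (fun n => ((2 ^ k : ℕ) : ℝ) / L ^ C₁ <
      ∑ m ∈ Icc 1 (2 ^ k), ppw (fv α γ n m).natAbs)) (by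
        intro n hn
        rw [mem_filter, mem_Icc] at hn
        rw [abs_le]
        push_cast
        constructor <;> omega) hk.2 (t := ((2 ^ k : ℕ) : ℝ) / L ^ C₁) (by
        intro n hn
        exact (mem_filter.1 hn).2.le)
    rw [← hL] at h1
    obtain ⟨c, hc⟩ : ∃ c : ℝ, c = (((Icc (-(M : ℤ)) M).filter (fun n => ((2 ^ k : ℕ) : ℝ) / L ^ C₁ <
      ∑ m ∈ Icc 1 (2 ^ k), ppw (fv α γ n m).natAbs)).card : ℝ) := ⟨_, rfl⟩
    rw [← hc] at h1 ⊢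
    have h2 : c = (c * (((2 ^ k : ℕ) : ℝ) / L ^ C₁)) * (L ^ C₁ / ((2 ^ k : ℕ) : ℝ)) := by
      field_simp
    rw [h2]
    calc (c * (((2 ^ k : ℕ) : ℝ) / L ^ C₁)) * (L ^ C₁ / ((2 ^ k : ℕ) : ℝ)) ≤
          (((2 ^ k : ℕ) : ℝ) * (4 * Real.sqrt N * L)) * (L ^ C₁ / ((2 ^ k : ℕ) : ℝ)) := by gcongr
      _ = _ := by
          rw [pow_succ]
          field_simp
  · apply mul_le_mul_of_nonneg_right _ (by positivity)
    have h1 : (((range (Nat.log 2 N + 2)).filter (fun k : ℕ => (2 ^ k) ^ 2 ≤ 4 * M)).card : ℝ) ≤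
        (range (Nat.log 2 N + 2)).card := by
      exact_mod_cast card_filter_le _ _
    refine h1.trans ?_
    rw [card_range]
    exact log_nat_le hN hL hL100

end Pool.Agent.K9h19.SP
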