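import Pool.Agent.K9h19.SP.CT2

/-!
# The count of the exceptional constant terms
-/

set_option autoImplicit false

namespace Pool.Agent.K9h19.SP

open Finset Polynomial
open Pool.Agent.H373R2.T7 (lamz Vz pz Vz_pos Vz_inv_small)
open Pool.Agent.K9h59.PA (cvl hq hq_deg SzP SzP_bd near_lam)
open Pool.Agent.R460.SQ (DZ thp ppw ppw_nn sum_ppw)
open Pool.Agent.R460.SB (fv fv_abs)
open Pool.Agent.Y614.GJ.Core (ev_log)

/-- the property off the exceptional sets -/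
lemma good_sp {α γ : ℤ} {C D D₁ D₂ E M N G z X₃ X₄ : ℕ} {L l : ℝ} {n : ℤ} (hl : l = Real.log M) (hL : L = Real.log N)
    (hM1 : 1 ≤ M)
    (hN : N = (α.natAbs + γ.natAbs + 1) * (4 * M))
    (hn : |n| ≤ M)
    (nl : ∀ X : ℕ, X₃ ≤ X → ∀ z : ℕ, 2 ≤ z → (z : ℝ) ≤ Real.log X ^ (E + 1) → (Vz z)⁻¹ ≤ Real.log X →
      ∀ (n : ℤ) (y N : ℕ), y ^ 2 ≤ X → (∀ m ∈ Icc 1 y, |fv α γ n m| ≤ N) →
      |∑ m ∈ Icc 1 y, ArithmeticFunction.vonMangoldt m * ArithmeticFunction.vonMangoldt (fv α γ n m).natAbs -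
        SzP α γ n z * y| ≤ ‖cvl (hq α γ) (DZ z) y N n‖ + ‖cvl (hq (-α) (-γ)) (DZ z) y N (-n)‖ +
        Real.sqrt X / Real.log X ^ (C + 2))
    (hVz : ∀ N : ℕ, X₄ ≤ N → ∀ z : ℕ, 1 ≤ z → (z : ℝ) ≤ Real.log N ^ (E + 1) → (Vz z)⁻¹ ≤ Real.log N)
    (k1 : 100 ≤ l) (k2 : l ≤ L) (k3 : L ≤ 2 * l) (k4 : 16 * (α.natAbs + γ.natAbs + 1) * 2 ^ D₁ ≤ l)
    (k5 : 16 * (α.natAbs + γ.natAbs + 1) * 2 ^ D₂ ≤ l) (k6 : 4 * 4 ^ E ≤ l) (k7 : 8 * 4 ^ (C + 2) ≤ l)
    (k8 : (X₃ : ℝ) ≤ l) (k9 : (X₄ : ℝ) ≤ l) (k10 : 2 ^ (C + 4) * 2 ≤ l)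
    (hD : D = D₁ + D₂ + 2 * C + 20) (hz2 : l ≤ z) (hz3 : (z : ℝ) ≤ l ^ E)
    (hG1 : L ^ (C + 4) ≤ G) (hG2 : (G : ℝ) ≤ L ^ (C + 4) + 1)
    (hA1 : n ∉ exA (hq α γ) z N M G D₁ (C + 4) 1) (hA2 : n ∉ exA (hq (-α) (-γ)) z N M G D₂ (C + 4) (-1))
    (hP : n ∉ exP α γ N M (C + 4)) : GoodS α γ C D M z n := by
  intro y hy1 hy2
  rw [← hl] at hy1 ⊢
  obtain ⟨hh, hhh⟩ : ∃ hh, hh = α.natAbs + γ.natAbs + 1 := ⟨_, rfl⟩
  have hhh1 : 1 ≤ hh := by omega
  have hhr : (1 : ℝ) ≤ hh := by exact_mod_cast hhh1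
  have k4' : 16 * (hh : ℝ) * 2 ^ D₁ ≤ l := by rw [hhh]; push_cast; exact k4
  have k5' : 16 * (hh : ℝ) * 2 ^ D₂ ≤ l := by rw [hhh]; push_cast; exact k5
  have hl0 : 0 < l := by linarith
  have hl1 : 1 ≤ l := by linarith
  have hL0 : 0 < L := by linarith
  have hL1 : 1 ≤ L := by linarith
  have hM0 : (0 : ℝ) < M := by exact_mod_cast hM1
  have hM1r : (1 : ℝ) ≤ M := by exact_mod_cast hM1
  have hMN : 4 * M ≤ N := by
    rw [hN, ← hhh]
    exact Nat.le_mul_of_pos_left _ (by omega)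
  have hNr : (N : ℝ) = 4 * hh * M := by rw [hN, ← hhh]; push_cast; ring
  have hM16 : (1 : ℝ) ≤ (M : ℝ) ^ (1 / 6 : ℝ) := Real.one_le_rpow hM1r (by norm_num)
  have hM13 : (1 : ℝ) ≤ (M : ℝ) ^ (1 / 3 : ℝ) := Real.one_le_rpow hM1r (by norm_num)
  have hMsq : ((M : ℝ) ^ (1 / 6 : ℝ)) ^ 2 = (M : ℝ) ^ (1 / 3 : ℝ) := by
    rw [← Real.rpow_natCast, ← Real.rpow_mul hM0.le]
    norm_num
  have hyl : l ^ D ≤ y := by
    refine le_trans ?_ hy1
    exact le_mul_of_one_le_left (by positivity) hM16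
  have hylj : ∀ j, j ≤ D → l ^ j ≤ y := fun j hj => (pow_le_pow_right₀ hl1 hj).trans hyl
  have hy0 : (0 : ℝ) < y := lt_of_lt_of_le (by positivity) hyl
  have hy1n : 1 ≤ y := by exact_mod_cast hy0
  have hyM : y ≤ M := (Nat.le_self_pow (by norm_num) y).trans hy2
  have hysq : (M : ℝ) ^ (1 / 3 : ℝ) * l ^ (2 * D) ≤ (y : ℝ) ^ 2 := by
    have h1 := pow_le_pow_left₀ (by positivity) hy1 2
    rw [mul_pow, hMsq, ← pow_mul] at h1
    rw [mul_comm 2 D]
    exact h1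
  -- powers of `L`
  have hLC : L ^ (C + 4) ≤ 2 ^ (C + 4) * l ^ (C + 4) := by
    calc L ^ (C + 4) ≤ (2 * l) ^ (C + 4) := pow_le_pow_left₀ hL0.le k3 _
      _ = _ := mul_pow _ _ _
  have hGy : G ≤ y := by
    have h1 : (G : ℝ) ≤ y := by
      refine hG2.trans (le_trans ?_ (hylj (C + 5) (by omega)))
      have h2 : 1 ≤ l ^ (C + 4) := one_le_pow₀ hl1
      have h3 : (1 : ℝ) ≤ 2 ^ (C + 4) := one_le_pow₀ (by norm_num)
      have h4 : l ^ (C + 5) = l * l ^ (C + 4) := by ring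
      rw [h4]
      have h5 : 2 ^ (C + 4) * 2 * l ^ (C + 4) ≤ l * l ^ (C + 4) :=
        mul_le_mul_of_nonneg_right k10 (by positivity)
      have h6 : (1 : ℝ) ≤ 2 ^ (C + 4) * l ^ (C + 4) := one_le_mul_of_one_le_of_one_le h3 h2
      linarith
    exact_mod_cast h1
  have hG1n : 1 ≤ G := by
    have : (1 : ℝ) ≤ G := (one_le_pow₀ hL1).trans hG1
    exact_mod_cast this
  obtain ⟨k, hk1, hk2, hk3, hk4⟩ := grid_sp hG1n hGy
  obtain ⟨s, hs⟩ : ∃ s, s = 2 ^ k := ⟨_, rfl⟩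
  have hs1 : 1 ≤ s := by rw [hs]; exact Nat.one_le_two_pow
  have hs0 : (0 : ℝ) < s := by exact_mod_cast hs1
  obtain ⟨y', hy'⟩ : ∃ y', y' = y / s * s := ⟨_, rfl⟩
  have hy'1 : y' ≤ y := by rw [hy']; exact Nat.div_mul_le_self _ _
  rw [← hs] at hk2 hk3 hk4
  rw [← hy'] at hk4
  have hsG : (s : ℝ) * L ^ (C + 4) ≤ y := by
    calc (s : ℝ) * L ^ (C + 4) ≤ s * G := by gcongr
      _ ≤ y := by exact_mod_cast hk2
  have hs2 : (s : ℝ) * 2 ≤ y := by
    refine le_trans ?_ hsG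
    apply mul_le_mul_of_nonneg_left _ hs0.le
    have : L ≤ L ^ (C + 4) := le_self_pow₀ hL1 (by omega)
    linarith
  have hy'2 : (y : ℝ) / 2 ≤ y' := by
    have h1 : (y : ℝ) < y' + s := by exact_mod_cast hk4
    linarith
  have hy'0 : (0 : ℝ) < y' := by linarith
  have hy'r : (y' : ℝ) ≤ y := by exact_mod_cast hy'1
  have hy'sq : (M : ℝ) ^ (1 / 3 : ℝ) * l ^ (2 * D) / 4 ≤ (y' : ℝ) ^ 2 := by
    have h1 : ((y : ℝ) / 2) ^ 2 ≤ (y' : ℝ) ^ 2 := pow_le_pow_left₀ (by positivity) hy'2 2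
    have h2 : ((y : ℝ) / 2) ^ 2 = (y : ℝ) ^ 2 / 4 := by ring
    rw [h2] at h1
    linarith
  have hrel : ∀ d : ℕ, d ≤ D → 16 * (hh : ℝ) * 2 ^ d ≤ l →
      (N : ℝ) ^ (1 / 3 : ℝ) * Real.log N ^ d ≤ (y' : ℝ) ^ 2 := by
    intro d hd1 hd2
    refine le_trans ?_ hy'sq
    rw [← hL]
    have h1 : (N : ℝ) ^ (1 / 3 : ℝ) ≤ 4 * hh * (M : ℝ) ^ (1 / 3 : ℝ) := by
      rw [hNr, Real.mul_rpow (by positivity) hM0.le]
      apply mul_le_mul_of_nonneg_right _ (by positivity)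
      calc (4 * (hh : ℝ)) ^ (1 / 3 : ℝ) ≤ (4 * (hh : ℝ)) ^ (1 : ℝ) :=
            Real.rpow_le_rpow_of_exponent_le (by linarith) (by norm_num)
        _ = _ := Real.rpow_one _
    have h2 : L ^ d ≤ 2 ^ d * l ^ d := by
      calc L ^ d ≤ (2 * l) ^ d := pow_le_pow_left₀ hL0.le k3 _
        _ = _ := mul_pow _ _ _
    calc (N : ℝ) ^ (1 / 3 : ℝ) * L ^ d ≤ (4 * hh * (M : ℝ) ^ (1 / 3 : ℝ)) * (2 ^ d * l ^ d) := by gcongr
      _ = (M : ℝ) ^ (1 / 3 : ℝ) * ((16 * hh * 2 ^ d) * l ^ d) / 4 := by ring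
      _ ≤ (M : ℝ) ^ (1 / 3 : ℝ) * (l * l ^ d) / 4 := by gcongr
      _ ≤ (M : ℝ) ^ (1 / 3 : ℝ) * l ^ (2 * D) / 4 := by
          rw [← pow_succ']
          gcongr ?_ / 4
          apply mul_le_mul_of_nonneg_left _ (by positivity)
          exact pow_le_pow_right₀ hl1 (by omega)
  have hy'N : y' ^ 2 ≤ N := by
    have h1 : y' ^ 2 ≤ y ^ 2 := Nat.pow_le_pow_left hy'1 2
    omega
  have hgr : ((k, y / s) : ℕ × ℕ) ∈ grd N G := by
    unfold grd
    rw [mem_product, mem_range, mem_range]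
    refine ⟨?_, hk3⟩
    simp only
    have : Nat.log 2 y ≤ Nat.log 2 N := Nat.log_mono_right (by omega)
    omega
  have hnI : n ∈ Icc (-(M : ℤ)) M := by
    rw [mem_Icc]
    exact abs_le.1 hn
  have hc1 : ‖cvl (hq α γ) (DZ z) y' N n‖ ≤ y' / L ^ (C + 4) := by
    by_contra hcon
    push Not at hcon
    apply hA1
    unfold exA
    rw [mem_biUnion]
    refine ⟨(k, y / s), ?_, ?_⟩
    · rw [mem_filter]
      refine ⟨hgr, ?_⟩
      simp only
      rw [← hs, ← hy']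
      exact ⟨hrel D₁ (by omega) k4', hy'N⟩
    · rw [mem_filter]
      refine ⟨hnI, ?_⟩
      simp only
      rw [← hs, ← hy', one_mul, ← hL]
      exact hcon
  have hc2 : ‖cvl (hq (-α) (-γ)) (DZ z) y' N (-n)‖ ≤ y' / L ^ (C + 4) := by
    by_contra hcon
    push Not at hcon
    apply hA2
    unfold exA
    rw [mem_biUnion]
    refine ⟨(k, y / s), ?_, ?_⟩
    · rw [mem_filter]
      refine ⟨hgr, ?_⟩
      simp only
      rw [← hs, ← hy']
      exact ⟨hrel D₂ (by omega) k5', hy'N⟩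
    · rw [mem_filter]
      refine ⟨hnI, ?_⟩
      simp only
      rw [← hs, ← hy', neg_one_mul, ← hL]
      exact hcon
  -- the formula on the grid
  obtain ⟨X', hX'⟩ : ∃ X', X' = y' ^ 2 := ⟨_, rfl⟩
  have hX'r : (X' : ℝ) = (y' : ℝ) ^ 2 := by rw [hX']; push_cast; rfl
  have hly' : l ≤ y' := by
    have h1 := hylj 2 (by omega)
    have h2 : 2 * l ≤ l ^ 2 := by
      rw [sq]
      exact mul_le_mul_of_nonneg_right (by linarith) hl0.le
    linarith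
  have hlX' : l ≤ X' := by
    rw [hX'r]
    have h1 : (y' : ℝ) ≤ (y' : ℝ) ^ 2 := le_self_pow₀ (by linarith) (by norm_num)
    linarith
  have hlogX' : l / 4 ≤ Real.log X' := by
    have h1 : (M : ℝ) ^ (1 / 3 : ℝ) ≤ X' := by
      rw [hX'r]
      refine le_trans ?_ hy'sq
      have h2 : l ≤ l ^ (2 * D) := le_self_pow₀ hl1 (by omega)
      have h3 : (M : ℝ) ^ (1 / 3 : ℝ) * 4 ≤ (M : ℝ) ^ (1 / 3 : ℝ) * l ^ (2 * D) := by
        apply mul_le_mul_of_nonneg_left _ (by positivity)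
        linarith
      linarith
    have h2 := Real.log_le_log (by positivity) h1
    rw [Real.log_rpow hM0, ← hl] at h2
    linarith
  have hlogX0 : 0 < Real.log X' := by linarith
  have hzX' : (z : ℝ) ≤ Real.log X' ^ (E + 1) := by
    calc (z : ℝ) ≤ l ^ E := hz3
      _ ≤ (4 * Real.log X') ^ E := pow_le_pow_left₀ hl0.le (by linarith) _
      _ = 4 ^ E * Real.log X' ^ E := mul_pow _ _ _
      _ ≤ Real.log X' * Real.log X' ^ E := by
          apply mul_le_mul_of_nonneg_right _ (by positivity)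
          linarith
      _ = _ := by ring
  have hz2n : 2 ≤ z := by
    have : (2 : ℝ) ≤ z := by linarith
    exact_mod_cast this
  have hVX' : (Vz z)⁻¹ ≤ Real.log X' := by
    apply hVz X' _ z (by omega) hzX'
    have : (X₄ : ℝ) ≤ X' := by linarith
    exact_mod_cast this
  have hX'N : (X' : ℝ) ≤ N := by
    rw [hX']
    exact_mod_cast hy'N
  have hVN : (Vz z)⁻¹ ≤ L := by
    refine hVX'.trans ?_
    rw [hL]
    exact Real.log_le_log (by linarith) hX'N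
  have hNle : (α.natAbs + γ.natAbs + 1) * (4 * M) ≤ N := hN.ge
  have hn4 : |n| ≤ ((4 * M : ℕ) : ℤ) := by
    refine hn.trans ?_
    push_cast
    omega
  have g1 := nl X' (by
      have : (X₃ : ℝ) ≤ X' := by linarith
      exact_mod_cast this) z hz2n hzX' hVX' n y' N hX'.ge (fun m hm => fv_abs hNle hn4 (by
        have h1 : y' ^ 2 ≤ y ^ 2 := Nat.pow_le_pow_left hy'1 2
        omega) hm)
  have hsqX' : Real.sqrt X' = y' := by
    rw [hX'r]
    exact Real.sqrt_sq hy'0.le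
  rw [hsqX'] at g1
  -- the prime powers
  obtain ⟨Y, hY⟩ : ∃ Y, Y = 2 ^ (Nat.log 2 y + 1) := ⟨_, rfl⟩
  have hyY : y ≤ Y := by rw [hY]; exact (Nat.lt_pow_succ_log_self (by norm_num) _).le
  have hY2 : Y ≤ 2 * y := by
    rw [hY, pow_succ]
    have : 2 ^ Nat.log 2 y ≤ y := Nat.pow_log_le_self 2 (by omega)
    omega
  have hY4 : Y ^ 2 ≤ 4 * M := by
    calc Y ^ 2 ≤ (2 * y) ^ 2 := Nat.pow_le_pow_left hY2 2
      _ = 4 * y ^ 2 := by ring
      _ ≤ 4 * M := by omega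
  have hY1 : 1 ≤ Y := by omega
  have hYr : (Y : ℝ) ≤ 2 * y := by exact_mod_cast hY2
  have hY0 : (0 : ℝ) < Y := by exact_mod_cast hY1
  have hp2 : ∑ m ∈ Icc 1 Y, ppw (fv α γ n m).natAbs ≤ Y / L ^ (C + 4) := by
    by_contra hcon
    push Not at hcon
    apply hP
    unfold exP
    rw [mem_biUnion]
    refine ⟨Nat.log 2 y + 1, ?_, ?_⟩
    · rw [mem_filter, mem_range, ← hY]
      refine ⟨?_, hY4⟩
      have : Nat.log 2 y ≤ Nat.log 2 N := Nat.log_mono_right (by omega)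
      omega
    · rw [mem_filter, ← hY, ← hL]
      exact ⟨hnI, hcon⟩
  have hp1 := sum_ppw hY1
  have main := step_sp (X := 4 * M) hL hL1 hNle hn4 hs1 hVN hyY hY4 (le_of_eq_of_le (by rw [← hy']) g1) hp1 hp2
  refine main.trans ?_
  -- numerics
  obtain ⟨W, hW⟩ : ∃ W : ℝ, W = y / l ^ C := ⟨_, rfl⟩
  rw [← hW]
  have hW0 : 0 < W := by rw [hW]; positivity
  have hyW : ∀ j : ℕ, (y : ℝ) / l ^ (C + j) = W / l ^ j := by
    intro j
    rw [hW, pow_add, div_div]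
  have hyLl : ∀ j : ℕ, (y : ℝ) / L ^ (C + j) ≤ W / l ^ j := by
    intro j
    rw [← hyW]
    apply div_le_div_of_nonneg_left hy0.le (by positivity)
    exact pow_le_pow_left₀ hl0.le k2 _
  have hWj : ∀ j : ℕ, 2 ≤ j → W / l ^ j ≤ W / 10000 := by
    intro j hj
    apply div_le_div_of_nonneg_left hW0.le (by norm_num)
    calc (10000 : ℝ) = 100 ^ 2 := by norm_num
      _ ≤ l ^ 2 := pow_le_pow_left₀ (by norm_num) k1 2
      _ ≤ l ^ j := pow_le_pow_right₀ hl1 hj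
  have q1 : (y' : ℝ) / L ^ (C + 4) ≤ W / 10000 := by
    calc (y' : ℝ) / L ^ (C + 4) ≤ y / L ^ (C + 4) := by gcongr
      _ ≤ W / l ^ 4 := hyLl 4
      _ ≤ _ := hWj 4 (by norm_num)
  have q2 : (y' : ℝ) / Real.log X' ^ (C + 2) ≤ W / 8 := by
    calc (y' : ℝ) / Real.log X' ^ (C + 2) ≤ y / (l / 4) ^ (C + 2) := by gcongr
      _ = 4 ^ (C + 2) * (y / l ^ (C + 2)) := by
          rw [div_pow]
          field_simp
      _ = 4 ^ (C + 2) * (W / l ^ 2) := by rw [hyW]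
      _ = W * (4 ^ (C + 2) / l ^ 2) := by ring
      _ ≤ W * (1 / 8) := by
          apply mul_le_mul_of_nonneg_left _ hW0.le
          rw [div_le_div_iff₀ (by positivity) (by norm_num)]
          have : l ≤ l ^ 2 := le_self_pow₀ hl1 (by norm_num)
          linarith
      _ = _ := by ring
  have q3 : 2 * (s * L ^ 2) ≤ W / 8 := by
    have h1 : (s : ℝ) * L ^ 2 ≤ y / L ^ (C + 2) := by
      rw [le_div_iff₀ (by positivity)]
      refine le_trans (le_of_eq ?_) hsG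
      ring
    have h2 := h1.trans ((hyLl 2).trans (hWj 2 le_rfl))
    linarith
  have q4 : L * (2 * Real.sqrt Y * Real.log Y) ≤ W / 8 := by
    have h1 : Real.log Y ≤ L := by
      rw [hL]
      apply Real.log_le_log hY0
      have : Y ≤ N := by
        have h2 : Y ≤ Y ^ 2 := Nat.le_self_pow (by norm_num) Y
        omega
      exact_mod_cast this
    have h2 : Real.sqrt Y ≤ 2 * Real.sqrt y := by
      rw [Real.sqrt_le_left (by positivity), mul_pow, Real.sq_sqrt hy0.le]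
      linarith
    have h3 : l ^ (C + 6) ≤ Real.sqrt y := by
      apply Real.le_sqrt_of_sq_le
      rw [← pow_mul]
      exact hylj _ (by omega)
    have h4 : Real.sqrt y * l ^ (C + 6) ≤ y := by
      calc Real.sqrt y * l ^ (C + 6) ≤ Real.sqrt y * Real.sqrt y := by gcongr
        _ = y := Real.mul_self_sqrt hy0.le
    have h5 : Real.sqrt y ≤ W / l ^ 6 := by
      rw [← hyW, le_div_iff₀ (by positivity)]
      exact h4
    have h6 : 0 ≤ Real.log Y := Real.log_natCast_nonneg _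
    calc L * (2 * Real.sqrt Y * Real.log Y) ≤ (2 * l) * (2 * (2 * (W / l ^ 6)) * (2 * l)) := by
          have h7 : Real.sqrt Y ≤ 2 * (W / l ^ 6) := by linarith
          have h8 : Real.log Y ≤ 2 * l := by linarith
          gcongr
      _ = W * (16 / l ^ 4) := by
          field_simp
          ring
      _ ≤ W * (1 / 8) := by
          apply mul_le_mul_of_nonneg_left _ hW0.le
          rw [div_le_div_iff₀ (by positivity) (by norm_num)]
          have h9 : (10000 : ℝ) ≤ l ^ 2 := by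
            calc (10000 : ℝ) = 100 ^ 2 := by norm_num
              _ ≤ l ^ 2 := pow_le_pow_left₀ (by norm_num) k1 2
          have h10 : l ^ 2 ≤ l ^ 4 := pow_le_pow_right₀ hl1 (by norm_num)
          linarith
      _ = _ := by ring
  have q5 : L * (Y / L ^ (C + 4)) ≤ W / 8 := by
    have h1 : L * (Y / L ^ (C + 4)) ≤ 2 * (y / L ^ (C + 3)) := by
      have e : L * ((Y : ℝ) / L ^ (C + 4)) = Y / L ^ (C + 3) := by
        rw [pow_succ L (C + 3)]
        field_simp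
      rw [e, mul_div_assoc']
      gcongr
    have h2 := (hyLl 3).trans (hWj 3 (by norm_num))
    linarith
  linarith

end Pool.Agent.K9h19.SP
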