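import Pool.Agent.K9h19.SP.CT3

/-!
# The count of the exceptional constant terms, conclusion
-/

set_option autoImplicit false

namespace Pool.Agent.K9h19.SP

open Finset Polynomial
open Pool.Agent.H373R2.T7 (lamz Vz pz Vz_pos Vz_inv_small)
open Pool.Agent.K9h59.PA (cvl hq hq_deg SzP SzP_bd near_lam)
open Pool.Agent.R460.SQ (DZ thp ppw ppw_nn sum_ppw)
open Pool.Agent.R460.SB (fv fv_abs)
open Pool.Agent.Y614.GJ.Core (ev_log)

open Classical in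
theorem cnt_sp {α γ : ℤ} (hα : α ≠ 0) (A C : ℕ) : ∃ B : ℕ, ∀ E : ℕ, ∃ D X₀ : ℕ, ∀ M : ℕ, X₀ ≤ M → ∀ z : ℕ,
    Real.log M ^ B ≤ z → (z : ℝ) ≤ Real.log M ^ E →
    (((Icc (-(M : ℤ)) M).filter (fun n => ¬ GoodS α γ C D M z n)).card : ℝ) ≤ M / Real.log M ^ A := by
  obtain ⟨C₁, hC₁⟩ : ∃ C₁ : ℕ, C₁ = C + 4 := ⟨_, rfl⟩
  obtain ⟨A₁, hA₁⟩ : ∃ A₁ : ℕ, A₁ = 3 * C₁ + A + 6 := ⟨_, rfl⟩
  obtain ⟨B₁, f₁⟩ := ms_sp (hq α γ) (hq_deg γ hα) A₁
  obtain ⟨B₂, f₂⟩ := ms_sp (hq (-α) (-γ)) (hq_deg (-γ) (neg_ne_zero.2 hα)) A₁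
  refine ⟨B₁ + B₂ + 1, fun E => ?_⟩
  obtain ⟨D₁, N₁, m1⟩ := f₁ E
  obtain ⟨D₂, N₂, m2⟩ := f₂ E
  obtain ⟨X₃, nl⟩ := near_lam (γ := γ) hα (C + 2) (E + 1)
  obtain ⟨X₄, hVz⟩ := Vz_inv_small (E + 1)
  obtain ⟨hh, hhh⟩ : ∃ hh, hh = α.natAbs + γ.natAbs + 1 := ⟨_, rfl⟩
  obtain ⟨X₅, h5⟩ := Filter.eventually_atTop.1 (ev_log (C₁ + A + 6) (s := 1 / 2) (by norm_num)
    (100 + 16 * (hh : ℝ) * 2 ^ D₁ + 16 * (hh : ℝ) * 2 ^ D₂ + 4 * 4 ^ E + 8 * 4 ^ (C + 2) + X₃ + X₄ +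
      2 ^ (C + 4) * 2 + 2 ^ B₁ + 2 ^ B₂ + 16 * 2 ^ (C₁ + 4) + 4 * hh))
  refine ⟨D₁ + D₂ + 2 * C + 20, N₁ + N₂ + X₅ + 1, ?_⟩
  intro M hM z hz1 hz2
  obtain ⟨hLb, hLp⟩ := h5 M (by omega)
  have hM1 : 1 ≤ M := by omega
  have hM0 : (0 : ℝ) < M := by exact_mod_cast hM1
  have hM1r : (1 : ℝ) ≤ M := by exact_mod_cast hM1
  obtain ⟨l, hl⟩ : ∃ l, l = Real.log (M : ℝ) := ⟨_, rfl⟩
  rw [← hl] at hLb hLp hz1 hz2 ⊢
  have hhr : (1 : ℝ) ≤ hh := by rw [hhh]; push_cast; linarith [abs_nonneg (α : ℝ), abs_nonneg (γ : ℝ)]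
  have p1 : 0 ≤ 16 * (hh : ℝ) * 2 ^ D₁ := by positivity
  have p2 : 0 ≤ 16 * (hh : ℝ) * 2 ^ D₂ := by positivity
  have p3 : (0 : ℝ) ≤ 4 * 4 ^ E := by positivity
  have p4 : (0 : ℝ) ≤ 8 * 4 ^ (C + 2) := by positivity
  have p5 : (0 : ℝ) ≤ X₃ := Nat.cast_nonneg _
  have p6 : (0 : ℝ) ≤ X₄ := Nat.cast_nonneg _
  have p7 : (0 : ℝ) ≤ 2 ^ (C + 4) * 2 := by positivity
  have p8 : (0 : ℝ) ≤ 2 ^ B₁ := by positivity
  have p9 : (0 : ℝ) ≤ 2 ^ B₂ := by positivity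
  have p10 : (0 : ℝ) ≤ 16 * 2 ^ (C₁ + 4) := by positivity
  have hl100 : 100 ≤ l := by linarith
  have hl0 : 0 < l := by linarith
  have hl1 : 1 ≤ l := by linarith
  obtain ⟨N, hN⟩ : ∃ N, N = (α.natAbs + γ.natAbs + 1) * (4 * M) := ⟨_, rfl⟩
  have hN' : N = hh * (4 * M) := by rw [hN, hhh]
  have hNr : (N : ℝ) = 4 * hh * M := by rw [hN']; push_cast; ring
  have hhh1 : 1 ≤ hh := by omega
  have hMN : 4 * M ≤ N := by rw [hN']; exact Nat.le_mul_of_pos_left _ (by omega)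
  obtain ⟨L, hL⟩ : ∃ L, L = Real.log (N : ℝ) := ⟨_, rfl⟩
  have hN0 : (0 : ℝ) < N := by exact_mod_cast (by omega : 0 < N)
  have k2 : l ≤ L := by
    rw [hl, hL]
    apply Real.log_le_log hM0
    exact_mod_cast (by omega : M ≤ N)
  have hsq : Real.sqrt M = (M : ℝ) ^ (1 / 2 : ℝ) := Real.sqrt_eq_rpow _
  rw [← hsq] at hLp
  have hsqM : Real.sqrt M ≤ M := by
    rw [Real.sqrt_le_left hM0.le]
    exact le_self_pow₀ hM1r (by norm_num)
  have hlM : l ≤ M := by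
    refine le_trans ?_ (hLp.trans hsqM)
    exact le_self_pow₀ hl1 (by omega)
  have k3 : L ≤ 2 * l := by
    have h1 : (N : ℝ) ≤ (M : ℝ) ^ 2 := by
      rw [hNr, sq]
      apply mul_le_mul_of_nonneg_right _ hM0.le
      linarith
    have h2 := Real.log_le_log hN0 h1
    rw [Real.log_pow, ← hL, ← hl] at h2
    exact_mod_cast h2
  have hL0 : 0 < L := by linarith
  have hL1 : 1 ≤ L := by linarith
  have hL100 : 100 ≤ L := by linarith
  obtain ⟨G, hG⟩ : ∃ G : ℕ, G = ⌈L ^ C₁⌉₊ := ⟨_, rfl⟩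
  have hG1 : L ^ C₁ ≤ G := by rw [hG]; exact Nat.le_ceil _
  have hG2 : (G : ℝ) ≤ L ^ C₁ + 1 := by rw [hG]; exact (Nat.ceil_lt_add_one (by positivity)).le
  have hlz : l ≤ z := (le_self_pow₀ hl1 (by omega : B₁ + B₂ + 1 ≠ 0)).trans hz1
  have hzL : (z : ℝ) ≤ L ^ E := hz2.trans (pow_le_pow_left₀ hl0.le k2 _)
  have hBz : ∀ B : ℕ, B ≤ B₁ + B₂ → 2 ^ B ≤ l → L ^ B ≤ z := by
    intro B hB1 hB2
    calc L ^ B ≤ (2 * l) ^ B := pow_le_pow_left₀ hL0.le k3 _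
      _ = 2 ^ B * l ^ B := mul_pow _ _ _
      _ ≤ l * l ^ B := by gcongr
      _ = l ^ (B + 1) := by ring
      _ ≤ l ^ (B₁ + B₂ + 1) := pow_le_pow_right₀ hl1 (by omega)
      _ ≤ z := hz1
  have e1 := exA_card (h := hq α γ) (z := z) (N := N) (M := M) (G := G) (D₁ := D₁) (C₁ := C₁) (A₁ := A₁) (σ := 1)
    (Or.inl rfl) hL hL1 (by omega) (by
      intro y hy1 hy2 S
      have := m1 N (by omega) z (by rw [← hL]; exact hBz B₁ (by omega) (by linarith)) (by rw [← hL]; exact hzL) y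
        (by rw [← hL]; exact hy1) hy2 S
      rw [← hL] at this
      exact this)
  have e2 := exA_card (h := hq (-α) (-γ)) (z := z) (N := N) (M := M) (G := G) (D₁ := D₂) (C₁ := C₁) (A₁ := A₁)
    (σ := -1) (Or.inr rfl) hL hL1 (by omega) (by
      intro y hy1 hy2 S
      have := m2 N (by omega) z (by rw [← hL]; exact hBz B₂ (by omega) (by linarith)) (by rw [← hL]; exact hzL) y
        (by rw [← hL]; exact hy1) hy2 S
      rw [← hL] at this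
      exact this)
  have e3 := exP_card (α := α) (γ := γ) (N := N) (M := M) (C₁ := C₁) hL hL100 (by omega) hN.ge
  have e1' := e1.resolve_right (by
    rintro (h | h)
    · linarith
    · omega)
  have e2' := e2.resolve_right (by
    rintro (h | h)
    · linarith
    · omega)
  have hsub : (Icc (-(M : ℤ)) M).filter (fun n => ¬ GoodS α γ C (D₁ + D₂ + 2 * C + 20) M z n) ⊆
      exA (hq α γ) z N M G D₁ C₁ 1 ∪ exA (hq (-α) (-γ)) z N M G D₂ C₁ (-1) ∪ exP α γ N M C₁ := by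
    intro n hn
    rw [mem_filter] at hn
    rw [mem_union, mem_union]
    by_contra hcon
    push Not at hcon
    apply hn.2
    obtain ⟨⟨c1, c2⟩, c3⟩ := hcon
    rw [hC₁] at c1 c2 c3 hG1 hG2
    have hhc : ((α.natAbs : ℝ) + (γ.natAbs : ℝ) + 1) = (hh : ℝ) := by rw [hhh]; push_cast; ring
    exact good_sp hl hL hM1 hN (by
      rw [abs_le]
      exact mem_Icc.1 hn.1) nl hVz hl100 k2 k3 (by rw [hhc]; linarith) (by rw [hhc]; linarith) (by linarith)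
      (by linarith) (by linarith) (by linarith) (by linarith) rfl hlz hz2 hG1 hG2 c1 c2 c3
  have hcard : (((Icc (-(M : ℤ)) M).filter (fun n => ¬ GoodS α γ C (D₁ + D₂ + 2 * C + 20) M z n)).card : ℝ) ≤
      ((exA (hq α γ) z N M G D₁ C₁ 1).card : ℝ) + ((exA (hq (-α) (-γ)) z N M G D₂ C₁ (-1)).card : ℝ) +
      ((exP α γ N M C₁).card : ℝ) := by
    have h1 := card_le_card hsub
    have h2 := card_union_le (exA (hq α γ) z N M G D₁ C₁ 1 ∪ exA (hq (-α) (-γ)) z N M G D₂ C₁ (-1)) (exP α γ N M C₁)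
    have h3 := card_union_le (exA (hq α γ) z N M G D₁ C₁ 1) (exA (hq (-α) (-γ)) z N M G D₂ C₁ (-1))
    have h4 := (h1.trans h2).trans (Nat.add_le_add_right h3 _)
    exact_mod_cast h4
  refine hcard.trans ?_
  obtain ⟨W, hW⟩ : ∃ W : ℝ, W = M / l ^ A := ⟨_, rfl⟩
  have hW0 : 0 < W := by rw [hW]; positivity
  rw [← hW]
  have b1 : (L ^ 2 * (2 * G)) * (N * L ^ (2 * C₁) / L ^ A₁) ≤ 1 / 4 * W := by
    have h1 : (G : ℝ) ≤ 2 * L ^ C₁ := by
      have : 1 ≤ L ^ C₁ := one_le_pow₀ hL1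
      linarith
    have h2 : (N : ℝ) ≤ L * M := by
      rw [hNr]
      apply mul_le_mul_of_nonneg_right _ hM0.le
      linarith
    calc (L ^ 2 * (2 * G)) * (N * L ^ (2 * C₁) / L ^ A₁) ≤
          (L ^ 2 * (2 * (2 * L ^ C₁))) * ((L * M) * L ^ (2 * C₁) / L ^ A₁) := by gcongr
      _ = (4 / L ^ 3) * (M / L ^ A) := by
          have h3 : L ^ A₁ = L ^ C₁ * L ^ (2 * C₁) * L ^ A * L ^ 6 := by
            rw [← pow_add, ← pow_add, ← pow_add, hA₁]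
            congr 1
            ring
          rw [h3]
          field_simp
          norm_num
      _ ≤ (1 / 4) * W := by
          rw [hW]
          have h4 : 4 / L ^ 3 ≤ 1 / 4 := by
            rw [div_le_div_iff₀ (by positivity) (by norm_num)]
            have : L ≤ L ^ 3 := le_self_pow₀ hL1 (by norm_num)
            linarith
          have h5 : (M : ℝ) / L ^ A ≤ M / l ^ A := by
            apply div_le_div_of_nonneg_left hM0.le (by positivity)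
            exact pow_le_pow_left₀ hl0.le k2 _
          exact mul_le_mul h4 h5 (by positivity) (by norm_num)
  have b2 : L ^ 2 * (4 * Real.sqrt N * L ^ (C₁ + 1)) ≤ 1 / 4 * W := by
    obtain ⟨r, hr⟩ : ∃ r, r = Real.sqrt M := ⟨_, rfl⟩
    have hr0 : 0 < r := by rw [hr]; exact Real.sqrt_pos.2 hM0
    have hrr : r * r = M := by rw [hr]; exact Real.mul_self_sqrt hM0.le
    rw [← hr] at hLp
    have h1 : Real.sqrt N ≤ L * r := by
      rw [Real.sqrt_le_left (by positivity)]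
      have e : (L * r) ^ 2 = L ^ 2 * M := by rw [← hrr]; ring
      rw [e, hNr]
      apply mul_le_mul_of_nonneg_right _ hM0.le
      have : L ≤ L ^ 2 := le_self_pow₀ hL1 (by norm_num)
      linarith
    have h2 : L ^ (C₁ + 4) ≤ 2 ^ (C₁ + 4) * l ^ (C₁ + 4) := by
      calc L ^ (C₁ + 4) ≤ (2 * l) ^ (C₁ + 4) := pow_le_pow_left₀ hL0.le k3 _
        _ = _ := mul_pow _ _ _
    have h3 : 16 * 2 ^ (C₁ + 4) * l ^ (C₁ + 4) * l ^ A ≤ r := by
      refine le_trans ?_ hLp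
      calc 16 * 2 ^ (C₁ + 4) * l ^ (C₁ + 4) * l ^ A ≤ l * l ^ (C₁ + 4) * l ^ A := by
            gcongr
            linarith
        _ = l ^ (C₁ + A + 5) := by ring
        _ ≤ l ^ (C₁ + A + 6) := pow_le_pow_right₀ hl1 (by omega)
    calc L ^ 2 * (4 * Real.sqrt N * L ^ (C₁ + 1)) ≤ L ^ 2 * (4 * (L * r) * L ^ (C₁ + 1)) := by gcongr
      _ = 4 * r * L ^ (C₁ + 4) := by ring
      _ ≤ 4 * r * (2 ^ (C₁ + 4) * l ^ (C₁ + 4)) := by gcongr
      _ = (r * (16 * 2 ^ (C₁ + 4) * l ^ (C₁ + 4) * l ^ A)) / (4 * l ^ A) := by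
          field_simp
          ring
      _ ≤ (r * r) / (4 * l ^ A) := by gcongr
      _ = 1 / 4 * W := by
          rw [hrr, hW]
          field_simp
  linarith

end Pool.Agent.K9h19.SP
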