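import Pool.Agent.K9h19.SP.CT4
import Pool.Agent.K9h59.PA.Fam

/-!
# The formula with the full Euler product
-/

set_option autoImplicit false

namespace Pool.Agent.K9h19.SP

open Finset Filter Topology
open Pool.Agent.W468.ConjF (SJ PJ)
open Pool.Agent.H373R2.T7 (Vz pz Vz_pos Vz_inv_small nuB mem_pz)
open Pool.Agent.R460.SB (fv QS)
open Pool.Agent.R460.SC (sol_lin)
open Pool.Agent.R460.SQ (thp)
open Pool.Agent.Y614.GJ.Core (ev_log)
open Pool.Agent.Y868.TB (Sol)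
open Pool.Agent.K9h59.CF (tail_fam)
open Pool.Agent.K9h59.PA (SzP SzP_bd SzP_lim SzP_low loc_ltS Adm ay1 ay2 ay3 ay4 ay5 ay6 ay7 fam_bd)

/-- the conclusion for one polynomial -/
def GoodP (a b : ℤ) (C D X : ℕ) (c : ℤ) : Prop :=
  ∃ S : ℝ, Tendsto (fun N : ℕ => SzP (-a) (-b) c N) atTop (𝓝 S) ∧
    (∀ y : ℕ, (X : ℝ) ^ (1 / 6 : ℝ) * Real.log X ^ D ≤ y → y ^ 2 ≤ X →
      |∑ m ∈ Icc 1 y, thp m * thp (fv (-a) (-b) c m).natAbs - S * y| ≤ y / Real.log X ^ C) ∧
    (Adm a b c → 0 < S ∧ ∃ m : ℕ, m.Prime ∧ (m : ℝ) ≤ (X : ℝ) ^ (1 / 6 : ℝ) * Real.log X ^ D ∧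
      (fv (-a) (-b) c m).natAbs.Prime)

theorem goodP_of {a b c : ℤ} (ha : 0 < a) (hc : c ≠ 0) {C D X z : ℕ} (hz : 3 ≤ z) (haz : a ≤ z) (hX1 : 1 ≤ X)
    (hcX : |c| ≤ X) {κ : ℝ} (hκ : κ = (1 / ((6 * -a).natAbs : ℝ)) ^ (6 * -a).natAbs)
    (hL : 100 + 2 / κ ≤ Real.log X) (hV : (Vz z)⁻¹ ≤ Real.log X)
    (hLX : Real.log X ^ (2 * (D + 2)) ≤ (X : ℝ) ^ (1 / 2 : ℝ))
    (hzL : Real.log X ^ (C + 6) ≤ z) (hsq : ¬ IsSquare (b ^ 2 - 4 * a * c))
    (htail : ∀ᶠ M in atTop, |SJ (b ^ 2 - 4 * a * c) z M| ≤ 1 / Real.log X ^ (C + 6))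
    (h : GoodS (-a) (-b) (C + 6) D X z c) : GoodP a b C (D + 1) X c := by
  obtain ⟨L, hLd⟩ : ∃ L, L = Real.log (X : ℝ) := ⟨_, rfl⟩
  have hX0 : (0 : ℝ) < X := by exact_mod_cast hX1
  have hX1r : (1 : ℝ) ≤ X := by exact_mod_cast hX1
  have ha1 : (1 : ℝ) ≤ (6 * -a).natAbs := by exact_mod_cast Int.natAbs_pos.2 (by omega : 6 * -a ≠ 0)
  have hκ0 : 0 < κ := by rw [hκ]; positivity
  have hcL : Real.log (c.natAbs : ℝ) ≤ L := by
    rw [hLd]
    apply Real.log_le_log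
    · exact_mod_cast Int.natAbs_pos.2 hc
    · have : (c.natAbs : ℤ) ≤ X := by rw [Int.natCast_natAbs]; exact hcX
      exact_mod_cast this
  have hcL0 : 0 ≤ Real.log (c.natAbs : ℝ) := Real.log_natCast_nonneg _
  rw [← hLd] at hL hV hzL htail hLX
  have h2κ : 0 < 2 / κ := by positivity
  have hL100 : 100 ≤ L := by linarith
  have hL0 : 0 < L := by linarith
  have hL1 : 1 ≤ L := by linarith
  have hκL : 2 ≤ κ * L := by
    have : 2 / κ ≤ L := by linarith
    rw [div_le_iff₀ hκ0] at this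
    linarith
  have hz0 : (0 : ℝ) < z := by exact_mod_cast (by omega : 0 < z)
  have hP0 : 0 < L ^ (C + 6) := by positivity
  have hP5 : 0 < L ^ (C + 5) := by positivity
  have hP65 : L ^ (C + 6) = L * L ^ (C + 5) := by ring
  have hLP5 : L ≤ L ^ (C + 5) := le_self_pow₀ hL1 (by omega)
  have h5z : 5 / (z : ℝ) ≤ 5 / L ^ (C + 6) := div_le_div_of_nonneg_left (by norm_num) hP0 hzL
  have h6 : 1 / L ^ (C + 6) + 5 / z ≤ 6 / L ^ (C + 6) := by
    have : 6 / L ^ (C + 6) = 1 / L ^ (C + 6) + 5 / L ^ (C + 6) := by ring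
    linarith
  have h65 : 6 / L ^ (C + 6) ≤ 1 / L ^ (C + 5) := by
    rw [hP65, div_le_div_iff₀ (by positivity) hP5, one_mul]
    exact mul_le_mul_of_nonneg_right (by linarith) hP5.le
  have h15 : 1 / L ^ (C + 5) ≤ 1 / 100 := one_div_le_one_div_of_le (by norm_num) (hL100.trans hLP5)
  have hcz : (2 * Real.log (c.natAbs : ℝ) + 4) / z ≤ 3 * (1 / L ^ (C + 5)) := by
    calc (2 * Real.log (c.natAbs : ℝ) + 4) / z ≤ (3 * L) / L ^ (C + 6) := by
          apply div_le_div₀ (by linarith) (by linarith) hP0 hzL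
      _ = 3 * (1 / L ^ (C + 5)) := by
          rw [hP65]
          field_simp
  obtain ⟨ℓ, hℓ0, hℓ, hℓ1⟩ := SzP_lim ha hc hz haz hsq (by positivity) htail (by linarith) (by linarith)
  have hℓ2 : |ℓ - 1| ≤ 16 * (1 / L ^ (C + 5)) := by linarith
  have hVp := Vz_pos z
  obtain ⟨M, hM⟩ : ∃ M, M = (X : ℝ) ^ (1 / 6 : ℝ) := ⟨_, rfl⟩
  have hM1 : 1 ≤ M := by rw [hM]; exact Real.one_le_rpow hX1r (by norm_num)
  have hM0 : 0 < M := by linarith
  refine ⟨SzP (-a) (-b) c z * ℓ, hℓ, fun y hy0 hy => ?_, fun hadm => ?_⟩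
  · have h8 := h y (by
      refine le_trans ?_ hy0
      rw [← hLd]
      apply mul_le_mul_of_nonneg_left _ (by positivity)
      exact pow_le_pow_right₀ hL1 (by omega)) hy
    rw [← hLd] at h8 ⊢
    obtain ⟨s0, s1⟩ := SzP_bd (-a) (-b) c z
    obtain ⟨Q, hQ⟩ : ∃ Q, Q = ∑ m ∈ Icc 1 y, thp m * thp (fv (-a) (-b) c m).natAbs := ⟨_, rfl⟩
    rw [← hQ] at h8 ⊢
    have e : Q - SzP (-a) (-b) c z * ℓ * y =
        (Q - SzP (-a) (-b) c z * y) - SzP (-a) (-b) c z * (ℓ - 1) * y := by ring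
    rw [e]
    refine (abs_sub _ _).trans ?_
    have hyy : (0 : ℝ) ≤ (y : ℝ) := Nat.cast_nonneg y
    have h9 : |SzP (-a) (-b) c z * (ℓ - 1) * y| ≤ L * (16 * (1 / L ^ (C + 5))) * y := by
      rw [abs_mul, abs_mul, abs_of_nonneg s0, abs_of_nonneg hyy]
      gcongr
      exact s1.trans hV
    have h11 : (y : ℝ) / L ^ (C + 6) = y / L ^ C * (1 / L ^ 6) := by
      rw [pow_add]
      field_simp
    have h12 : L * (16 * (1 / L ^ (C + 5))) * y = y / L ^ C * (16 / L ^ 4) := by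
      rw [pow_add L C 5]
      field_simp
    have h13 : 1 / L ^ 6 + 16 / L ^ 4 ≤ 1 := by
      have a1 : 1 / L ^ 6 ≤ 1 / 2 := by
        apply one_div_le_one_div_of_le (by norm_num)
        have : L ≤ L ^ 6 := le_self_pow₀ hL1 (by norm_num)
        linarith
      have a2 : 16 / L ^ 4 ≤ 1 / 2 := by
        rw [div_le_div_iff₀ (by positivity) (by norm_num)]
        have : L ≤ L ^ 4 := le_self_pow₀ hL1 (by norm_num)
        linarith
      linarith
    have h14 : 0 ≤ (y : ℝ) / L ^ C := by positivity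
    have h16 := mul_le_mul_of_nonneg_left h13 h14
    rw [mul_add, mul_one] at h16
    linarith
  · have hS := SzP_low (α := -a) (γ := -b) (by omega) c z (fun p hp => loc_ltS (mem_pz.1 hp).2 (hadm p (mem_pz.1 hp).2))
    rw [← hκ] at hS
    have hSz0 : 0 < SzP (-a) (-b) c z := lt_of_lt_of_le (by positivity) hS
    refine ⟨by positivity, ?_⟩
    obtain ⟨y, hy⟩ : ∃ y, y = ⌈M * L ^ D⌉₊ := ⟨_, rfl⟩
    have hyl : M * L ^ D ≤ y := by rw [hy]; exact Nat.le_ceil _
    have hyu : (y : ℝ) ≤ M * L ^ D + 1 := by rw [hy]; exact (Nat.ceil_lt_add_one (by positivity)).le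
    have hML1 : 1 ≤ M * L ^ D := one_le_mul_of_one_le_of_one_le hM1 (one_le_pow₀ hL1)
    have hyu2 : (y : ℝ) ≤ M * L ^ (D + 1) := by
      have e : M * L ^ (D + 1) = M * L ^ D * L := by ring
      rw [e]
      have : M * L ^ D * 2 ≤ M * L ^ D * L := by
        apply mul_le_mul_of_nonneg_left _ (by positivity)
        linarith
      linarith
    have hyX : y ^ 2 ≤ X := by
      have h1 : (y : ℝ) ^ 2 ≤ X := by
        calc (y : ℝ) ^ 2 ≤ (M * L ^ (D + 1)) ^ 2 := pow_le_pow_left₀ (Nat.cast_nonneg _) hyu2 2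
          _ = M ^ 2 * L ^ (2 * (D + 1)) := by rw [mul_pow, ← pow_mul]; ring_nf
          _ ≤ (X : ℝ) ^ (1 / 3 : ℝ) * (X : ℝ) ^ (1 / 2 : ℝ) := by
              apply mul_le_mul
              · rw [hM, ← Real.rpow_natCast, ← Real.rpow_mul hX0.le]
                norm_num
              · exact (pow_le_pow_right₀ hL1 (by omega)).trans hLX
              · positivity
              · positivity
          _ = (X : ℝ) ^ (5 / 6 : ℝ) := by
              rw [← Real.rpow_add hX0]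
              norm_num
          _ ≤ (X : ℝ) ^ (1 : ℝ) := Real.rpow_le_rpow_of_exponent_le hX1r (by norm_num)
          _ = X := Real.rpow_one _
      exact_mod_cast h1
    have h8 := h y (by rw [← hLd, ← hM]; exact hyl) hyX
    rw [← hLd] at h8 ⊢
    rw [← hM]
    have hy0 : (0 : ℝ) < y := by linarith
    by_contra hno
    have h7 : ∑ m ∈ Icc 1 y, thp m * thp (fv (-a) (-b) c m).natAbs = 0 := by
      apply sum_eq_zero
      intro m hm
      by_cases hp1 : m.Prime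
      · have hp2 : ¬ (fv (-a) (-b) c m).natAbs.Prime := by
          intro hp2
          apply hno
          rw [mem_Icc] at hm
          have hmy : (m : ℝ) ≤ y := by exact_mod_cast hm.2
          exact ⟨m, hp1, hmy.trans hyu2, hp2⟩
        unfold thp
        rw [if_neg hp2, mul_zero]
      · unfold thp
        rw [if_neg hp1, zero_mul]
    rw [h7, zero_sub, abs_neg] at h8
    have hV2 : κ * (1 / L ^ 4) ≤ SzP (-a) (-b) c z := by
      refine le_trans ?_ hS
      have : 1 / L ≤ Vz z := by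
        rw [one_div]
        exact inv_le_of_inv_le₀ hVp hV
      apply mul_le_mul_of_nonneg_left _ hκ0.le
      calc 1 / L ^ 4 = (1 / L) ^ 4 := by rw [div_pow, one_pow]
        _ ≤ Vz z ^ 4 := by gcongr
    have h9 : SzP (-a) (-b) c z * y ≤ y / L ^ (C + 6) := le_trans (le_abs_self _) h8
    have h10 : κ * (1 / L ^ 4) * y ≤ y / L ^ (C + 6) := by
      refine le_trans ?_ h9
      exact mul_le_mul_of_nonneg_right hV2 hy0.le
    have h11 : (y : ℝ) / L ^ (C + 6) = κ * (1 / L ^ 4) * y * (1 / (κ * L ^ (C + 2))) := by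
      have : L ^ (C + 6) = L ^ 4 * L ^ (C + 2) := by ring
      rw [this]
      field_simp
    rw [h11] at h10
    have h12 : 1 / (κ * L ^ (C + 2)) < 1 := by
      rw [div_lt_one (by positivity)]
      have a1 : L ^ 2 ≤ L ^ (C + 2) := pow_le_pow_right₀ hL1 (by omega)
      have a2 : κ * L ^ 2 ≤ κ * L ^ (C + 2) := by gcongr
      have a3 := ay1 hκL hL100
      linarith
    have h13 : 0 < κ * (1 / L ^ 4) * y := by positivity
    exact ay2 h13 h12 h10

end Pool.Agent.K9h19.SP
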