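import Pool.Agent.K9h19.SP.FM

/-!
# The formula with the full Euler product for almost all constant terms
-/

set_option autoImplicit false

namespace Pool.Agent.K9h19.SP

open Finset Filter Topology
open Pool.Agent.W468.ConjF (SJ PJ)
open Pool.Agent.H373R2.T7 (Vz pz Vz_pos Vz_inv_small nuB mem_pz)
open Pool.Agent.R460.SB (fv QS)
open Pool.Agent.R460.SC (sol_lin)
open Pool.Agent.R460.SQ (thp)
open Pool.Agent.Y614.GJ.Core (ev_log)
open Pool.Agent.Y868.TB (Sol)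
open Pool.Agent.K9h59.CF (tail_fam)
open Pool.Agent.K9h59.PA (SzP SzP_bd SzP_lim SzP_low loc_ltS Adm ay1 ay2 ay3 ay4 ay5 ay6 ay7 fam_bd)

open Classical in
theorem fam_sp {a b : ℤ} (ha : 0 < a) (A C : ℕ) : ∃ D X₀ : ℕ, ∀ X : ℕ, X₀ ≤ X →
    (((Icc (-(X : ℤ)) X).filter (fun c : ℤ => ¬ GoodP a b C D X c)).card : ℝ) ≤ X / Real.log X ^ A := by
  obtain ⟨B₁, hB₁⟩ := cnt_sp (α := -a) (γ := -b) (by omega) (A + 1) (C + 6)
  obtain ⟨B₂, hB₂⟩ := tail_fam (C + 6) 2 (by norm_num) (1 / 8) (by norm_num)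
  obtain ⟨B', hB'⟩ : ∃ B', B' = B₁ + B₂ + C + 7 := ⟨_, rfl⟩
  obtain ⟨D, N₁, h1⟩ := hB₁ (B' + 1)
  obtain ⟨N₂, h2⟩ := hB₂ (B' + 1)
  obtain ⟨N₃, h3⟩ := Vz_inv_small (B' + 1)
  obtain ⟨w, hw⟩ : ∃ w : ℝ, w = (b.natAbs : ℝ) ^ 2 + 4 * a.natAbs := ⟨_, rfl⟩
  obtain ⟨κ₁, hκ₁⟩ : ∃ κ₁ : ℝ, κ₁ = (1 / ((6 * -a).natAbs : ℝ)) ^ (6 * -a).natAbs := ⟨_, rfl⟩
  have ha1 : (1 : ℝ) ≤ (6 * -a).natAbs := by exact_mod_cast Int.natAbs_pos.2 (by omega : 6 * -a ≠ 0)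
  have hκ₁0 : 0 < κ₁ := by rw [hκ₁]; positivity
  obtain ⟨N₄, h4⟩ := Filter.eventually_atTop.1 (ev_log (A + 2 + 2 * (D + 2)) (s := 1 / 8) (by norm_num)
    (100 + (a : ℝ) + 2 * w + 2 / κ₁))
  refine ⟨D + 1, N₁ + N₂ + N₃ + N₄ + 3, fun X hX => ?_⟩
  obtain ⟨hLb, hLp⟩ := h4 X (by omega)
  have hX1 : 1 ≤ X := by omega
  have hX0 : (0 : ℝ) < X := by exact_mod_cast hX1
  have hX1r : (1 : ℝ) ≤ X := by exact_mod_cast hX1
  have c1 := h1 X (by omega)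
  have c2 := h2 X (by omega)
  have c3 := h3 X (by omega)
  obtain ⟨L, hL⟩ : ∃ L, L = Real.log (X : ℝ) := ⟨_, rfl⟩
  have ha0 : (0 : ℝ) < a := by exact_mod_cast ha
  have hw0 : 0 ≤ w := by rw [hw]; positivity
  have h2κ : 0 < 2 / κ₁ := by positivity
  rw [← hL] at hLb hLp c1 c2 c3 ⊢
  have hL100 : 100 ≤ L := by linarith
  have hL0 : 0 < L := by linarith
  have hL1 : 1 ≤ L := by linarith
  -- the parameter `z`
  have hL1B : 1 ≤ L ^ B' := one_le_pow₀ hL1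
  obtain ⟨i0, hi0⟩ : ∃ i0, i0 = Nat.log 2 ⌈L ^ B'⌉₊ + 1 := ⟨_, rfl⟩
  have hzlo : L ^ B' ≤ (2 : ℝ) ^ i0 := by
    have e1 : ⌈L ^ B'⌉₊ < 2 ^ i0 := by rw [hi0]; exact Nat.lt_pow_succ_log_self (by norm_num) _
    have e2 : (⌈L ^ B'⌉₊ : ℝ) ≤ 2 ^ i0 := by exact_mod_cast e1.le
    exact (Nat.le_ceil _).trans e2
  have hzhi : (2 : ℝ) ^ i0 ≤ L ^ (B' + 1) := by
    have e0 : 0 < ⌈L ^ B'⌉₊ := Nat.ceil_pos.2 (by linarith)
    have e1 : 2 ^ Nat.log 2 ⌈L ^ B'⌉₊ ≤ ⌈L ^ B'⌉₊ := Nat.pow_log_le_self 2 e0.ne'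
    have e2 : (2 : ℝ) ^ Nat.log 2 ⌈L ^ B'⌉₊ ≤ ⌈L ^ B'⌉₊ := by exact_mod_cast e1
    have e3 := Nat.ceil_lt_add_one (show 0 ≤ L ^ B' by linarith)
    rw [hi0, pow_succ, pow_succ L]
    exact ay3 e2 e3 hL1B hL100
  obtain ⟨z, hz⟩ : ∃ z, z = 2 ^ i0 := ⟨_, rfl⟩
  have hzr : (z : ℝ) = (2 : ℝ) ^ i0 := by rw [hz]; push_cast; rfl
  have hzL : L ≤ z := by
    rw [hzr]
    exact (le_self_pow₀ hL1 (by omega)).trans hzlo
  have hz3 : 3 ≤ z := by
    have : (3 : ℝ) ≤ z := by linarith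
    exact_mod_cast this
  have haz : a ≤ z := by
    have : (a : ℝ) ≤ z := by linarith
    exact_mod_cast this
  have hpw : ∀ j, j ≤ B' → L ^ j ≤ (2 : ℝ) ^ i0 := fun j hj => (pow_le_pow_right₀ hL1 hj).trans hzlo
  have d1 := c1 z (by rw [hzr]; exact hpw _ (by omega)) (by rw [hzr]; exact hzhi)
  have d3 := c3 z (by omega) (by rw [hzr]; exact hzhi)
  -- the discriminants
  obtain ⟨R, hR⟩ : ∃ R, R = b.natAbs ^ 2 + 4 * a.natAbs * X := ⟨_, rfl⟩
  have hRr : (R : ℝ) ≤ w * X := by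
    rw [hR, hw]
    push_cast
    have : (0 : ℝ) ≤ ((b.natAbs : ℕ) : ℝ) ^ 2 := by positivity
    push_cast at this
    exact ay4 this hX1r (Nat.cast_nonneg _)
  have h18 : (X : ℝ) ^ (1 / 8 : ℝ) ≤ (X : ℝ) ^ (1 / 2 : ℝ) := Real.rpow_le_rpow_of_exponent_le hX1r (by norm_num)
  have hXh : L ≤ (X : ℝ) ^ (1 / 2 : ℝ) :=
    (le_self_pow₀ hL1 (by omega : A + 2 + 2 * (D + 2) ≠ 0)).trans (hLp.trans h18)
  have hXX : (X : ℝ) ^ (1 / 2 : ℝ) ≤ X := by
    calc (X : ℝ) ^ (1 / 2 : ℝ) ≤ (X : ℝ) ^ (1 : ℝ) := Real.rpow_le_rpow_of_exponent_le hX1r (by norm_num)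
      _ = X := Real.rpow_one _
  have hRX : R ≤ X ^ 2 := by
    have e1 : (R : ℝ) ≤ (X : ℝ) ^ 2 := by
      refine hRr.trans ?_
      rw [sq]
      apply mul_le_mul_of_nonneg_right _ hX0.le
      linarith
    exact_mod_cast e1
  have hβ1 : |-(4 * a)| ≤ 4 * |a| := by
    rw [abs_neg, abs_mul]
    exact le_of_eq (by norm_num)
  have hβ2 : |4 * a| ≤ 4 * |a| := by
    rw [abs_mul]
    exact le_of_eq (by norm_num)
  have hfR1 : ∀ k ∈ Icc 1 X, (b ^ 2 + (-(4 * a)) * (k : ℤ)).natAbs ≤ R := fun k hk => by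
    rw [hR]
    exact fam_bd hβ1 hk
  have hfR2 : ∀ k ∈ Icc 1 X, (b ^ 2 + (4 * a) * (k : ℤ)).natAbs ≤ R := fun k hk => by
    rw [hR]
    exact fam_bd hβ2 hk
  obtain ⟨W, hW⟩ : ∃ W : ℝ, W = (Nat.sqrt R : ℝ) + 1 := ⟨_, rfl⟩
  have hW0 : 0 ≤ W := by rw [hW]; positivity
  obtain ⟨Ex, hEx1, hEx2⟩ := c2 i0 (hpw _ (by omega)) hzhi (fun k : ℕ => b ^ 2 + (-(4 * a)) * (k : ℤ))
    (fun k hk => (hfR1 k hk).trans hRX) W hW0 (fun d => by
      rw [hW]
      exact_mod_cast sol_lin (b ^ 2) (-(4 * a)) (by omega) X R hfR1 d)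
  obtain ⟨Ey, hEy1, hEy2⟩ := c2 i0 (hpw _ (by omega)) hzhi (fun k : ℕ => b ^ 2 + (4 * a) * (k : ℤ))
    (fun k hk => (hfR2 k hk).trans hRX) W hW0 (fun d => by
      rw [hW]
      exact_mod_cast sol_lin (b ^ 2) (4 * a) (by omega) X R hfR2 d)
  obtain ⟨h, hh⟩ : ∃ h, h = (X : ℝ) ^ (1 / 8 : ℝ) := ⟨_, rfl⟩
  obtain ⟨M, hM⟩ : ∃ M, M = (X : ℝ) ^ (1 / 2 : ℝ) := ⟨_, rfl⟩
  have hMs : M = Real.sqrt X := by rw [hM, Real.sqrt_eq_rpow]
  have hLh : L ^ (A + 2) ≤ h := by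
    rw [hh]
    exact (pow_le_pow_right₀ hL1 (by omega)).trans hLp
  have hLh1 : L ≤ h := (le_self_pow₀ hL1 (by omega)).trans hLh
  have hh1 : 1 ≤ h := by linarith
  rw [← hM] at hXh hXX
  have hM1 : 1 ≤ M := by linarith
  have hWM : W ≤ h * M := by
    have e1 : (Nat.sqrt R : ℝ) ≤ w * M + M := by
      have e2 : (Nat.sqrt R : ℝ) ≤ Real.sqrt R := Real.nat_sqrt_le_real_sqrt
      have e3 : Real.sqrt R ≤ w * M + M := by
        rw [Real.sqrt_le_left (by positivity)]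
        have e4 : M * M = X := by rw [hMs]; exact Real.mul_self_sqrt hX0.le
        calc (R : ℝ) ≤ w * X := hRr
          _ = w * (M * M) := by rw [e4]
          _ ≤ (w * M + M) ^ 2 := by
              exact ay5 hw0 M
      exact e2.trans e3
    rw [hW]
    have e5 : w * M + M + 1 ≤ L * M := ay6 hM1 (by linarith)
    have e6 : L * M ≤ h * M := mul_le_mul_of_nonneg_right hLh1 (by linarith)
    linarith
  have hDM : h * h * h * h * M = X := by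
    rw [hh, hM, ← Real.rpow_add hX0, ← Real.rpow_add hX0, ← Real.rpow_add hX0, ← Real.rpow_add hX0]
    norm_num
  have hExc : ∀ E : Finset ℕ, (E.card : ℝ) ≤ (X : ℝ) ^ (1 / 8 : ℝ) * W → (E.card : ℝ) ≤ X / L ^ (A + 1) := by
    intro E hE
    rw [le_div_iff₀ (by positivity)]
    rw [← hh] at hE
    calc (E.card : ℝ) * L ^ (A + 1) ≤ (h * (h * M)) * h := by
          apply mul_le_mul _ _ (by positivity) (by positivity)
          · exact hE.trans (mul_le_mul_of_nonneg_left hWM (by linarith))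
          · exact (pow_le_pow_right₀ hL1 (by omega)).trans hLh
      _ = (h * h * h * M) * 1 := by ring
      _ ≤ (h * h * h * M) * h := by gcongr
      _ = h * h * h * h * M := by ring
      _ = X := hDM
  obtain ⟨F1, hF1⟩ : ∃ F1, F1 = (Icc (-(X : ℤ)) X).filter (fun c : ℤ => ¬ GoodS (-a) (-b) (C + 6) D X z c) := ⟨_, rfl⟩
  rw [← hF1] at d1
  have hsub : (Icc (-(X : ℤ)) X).filter (fun c : ℤ => ¬ GoodP a b C (D + 1) X c) ⊆
      F1 ∪ Ex.image (fun n : ℕ => (n : ℤ)) ∪ Ey.image (fun n : ℕ => -(n : ℤ)) ∪ {0} := by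
    intro c hc
    rw [mem_filter] at hc
    obtain ⟨g1, g4⟩ := hc
    have g2 := mem_Icc.1 g1
    rw [mem_union, mem_union, mem_union, hF1, mem_filter, mem_singleton]
    by_cases h0 : c = 0
    · exact Or.inr h0
    left
    by_cases hE : c.natAbs ∈ Ex ∧ 0 < c
    · left
      right
      rw [mem_image]
      exact ⟨c.natAbs, hE.1, by omega⟩
    by_cases hE' : c.natAbs ∈ Ey ∧ c < 0
    · right
      rw [mem_image]
      exact ⟨c.natAbs, hE'.1, by omega⟩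
    left
    left
    refine ⟨g1, fun hg => g4 ?_⟩
    have hcI : c.natAbs ∈ Icc 1 X := by
      rw [mem_Icc]
      constructor <;> omega
    have hkey : ¬ IsSquare (b ^ 2 - 4 * a * c) ∧ ∀ᶠ N in atTop, |SJ (b ^ 2 - 4 * a * c) (2 ^ i0) N| ≤
        1 / L ^ (C + 6) := by
      rcases lt_or_gt_of_ne h0 with hneg | hpos
      · have hnE : c.natAbs ∉ Ey := fun h => hE' ⟨h, hneg⟩
        have e1 := hEy2 c.natAbs hcI hnE
        have e3 : b ^ 2 + (4 * a) * ((c.natAbs : ℕ) : ℤ) = b ^ 2 - 4 * a * c := by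
          have : ((c.natAbs : ℕ) : ℤ) = -c := by omega
          rw [this]
          ring
        simp only [e3] at e1
        exact e1
      · have hnE : c.natAbs ∉ Ex := fun h => hE ⟨h, hpos⟩
        have e1 := hEx2 c.natAbs hcI hnE
        have e3 : b ^ 2 + (-(4 * a)) * ((c.natAbs : ℕ) : ℤ) = b ^ 2 - 4 * a * c := by
          have : ((c.natAbs : ℕ) : ℤ) = c := by omega
          rw [this]
          ring
        simp only [e3] at e1
        exact e1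
    refine goodP_of ha h0 hz3 haz hX1 (abs_le.2 g2) hκ₁ (by rw [← hL]; linarith)
      (by rw [← hL]; exact d3) (by
      rw [← hL]
      exact (pow_le_pow_right₀ hL1 (by omega)).trans (hLp.trans h18)) (by
      rw [← hL, hzr]
      exact hpw _ (by omega)) hkey.1 ?_ hg
    rw [← hL, hz]
    exact hkey.2
  have hcard : (((Icc (-(X : ℤ)) X).filter (fun c : ℤ => ¬ GoodP a b C (D + 1) X c)).card : ℝ) ≤
      (F1.card : ℝ) + (Ex.card : ℝ) + (Ey.card : ℝ) + 1 := by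
    have e1 := card_le_card hsub
    have e2 := card_union_le (F1 ∪ Ex.image (fun n : ℕ => (n : ℤ)) ∪ Ey.image (fun n : ℕ => -(n : ℤ))) {0}
    have e3 := card_union_le (F1 ∪ Ex.image (fun n : ℕ => (n : ℤ))) (Ey.image (fun n : ℕ => -(n : ℤ)))
    have e4 := card_union_le F1 (Ex.image (fun n : ℕ => (n : ℤ)))
    have e5 : (Ex.image (fun n : ℕ => (n : ℤ))).card ≤ Ex.card := card_image_le
    have e6 : (Ey.image (fun n : ℕ => -(n : ℤ))).card ≤ Ey.card := card_image_le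
    rw [card_singleton] at e2
    have e7 : ((Icc (-(X : ℤ)) X).filter (fun c : ℤ => ¬ GoodP a b C (D + 1) X c)).card ≤
        F1.card + Ex.card + Ey.card + 1 := by omega
    exact_mod_cast e7
  refine hcard.trans ?_
  have hone : (1 : ℝ) ≤ X / L ^ (A + 1) := by
    rw [le_div_iff₀ (by positivity), one_mul]
    calc L ^ (A + 1) ≤ h := (pow_le_pow_right₀ hL1 (by omega)).trans hLh
      _ = h * 1 := (mul_one h).symm
      _ ≤ h * (h * h * h * M) := by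
          apply mul_le_mul_of_nonneg_left _ (by linarith)
          exact ay7 hh1 hM1
      _ = h * h * h * h * M := by ring
      _ = X := hDM
  have q1 := hExc Ex hEx1
  have q2 := hExc Ey hEy1
  calc (F1.card : ℝ) + (Ex.card : ℝ) + (Ey.card : ℝ) + 1 ≤
        X / L ^ (A + 1) + X / L ^ (A + 1) + X / L ^ (A + 1) + X / L ^ (A + 1) := by linarith
    _ = X / L ^ A * (4 / L) := by
        rw [pow_succ]
        field_simp
        ring
    _ ≤ X / L ^ A * 1 := by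
        apply mul_le_mul_of_nonneg_left _ (by positivity)
        rw [div_le_one hL0]
        linarith
    _ = _ := mul_one _

end Pool.Agent.K9h19.SP
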