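import Pool.Agent.K9h19.CR.SM3
import Pool.Agent.K9h19.CR.Asm
import Pool.Agent.K9h19.CR.TW
import Pool.Agent.K9h59.PA.MinP
import Pool.Agent.K9h59.PA.Arc
import Pool.Agent.R460.SQ.Model

/-!
# The mean square of the correlation with a quadratic polynomial at the primes, short sums
-/

set_option autoImplicit false

namespace Pool.Agent.K9h19.SP

open Finset Filter Topology MeasureTheory Polynomial
open Pool.Agent.Q236.CR
open Pool.Agent.K9h19.CR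
open Pool.Agent.H807R2.Dav (ee norm_ee ee_add ee_zero)
open Pool.Agent.H373R2.T7 (lamz Vz pz Vz_pos Vz_inv_small)
open Pool.Agent.R486.PD (SLam Near)
open Pool.Agent.K9h59.PA (cvl SLam_triv minor_pow)
open Pool.Agent.R460.SQ (DZ)

theorem SLam_cont (h : ℤ[X]) (y : ℕ) : Continuous (fun β => SLam h y β) := by
  unfold SLam
  fun_prop

/-- the correlation inequality -/
theorem conv_sp (h : ℤ[X]) (z y N : ℕ) (S : Finset ℤ) :
    ∑ n ∈ S, ‖cvl h (DZ z) y N n‖ ^ 2 ≤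
      ∫ β in (0 : ℝ)..1, ‖FF (EE z) N β‖ ^ 2 * ‖SLam h y β‖ ^ 2 := by
  have h0 := bess (Icc 1 N ×ˢ Icc 1 y)
    (fun i => (EE z i.1 : ℂ) * ((ArithmeticFunction.vonMangoldt i.2 : ℝ) : ℂ))
    (fun i => (i.1 : ℤ) + h.eval (i.2 : ℤ)) S
  have h1 : ∀ n ∈ S, ‖cvl h (DZ z) y N n‖ ^ 2 =
      ‖∑ i ∈ Icc 1 N ×ˢ Icc 1 y with (i.1 : ℤ) + h.eval (i.2 : ℤ) = n,
        (EE z i.1 : ℂ) * ((ArithmeticFunction.vonMangoldt i.2 : ℝ) : ℂ)‖ ^ 2 := by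
    intro n _
    congr 2
    rw [Finset.sum_filter, Finset.sum_product_right]
    unfold cvl
    apply Finset.sum_congr rfl
    intro m _
    rw [Finset.mul_sum]
    apply Finset.sum_congr rfl
    intro l _
    simp only
    split_ifs with hv
    · unfold DZ EE
      ring
    · rw [mul_zero]
  rw [Finset.sum_congr rfl h1]
  refine h0.trans (le_of_eq ?_)
  apply intervalIntegral.integral_congr
  intro β _
  simp only
  rw [← mul_pow]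
  congr 1
  have e2 : ∑ i ∈ Icc 1 N ×ˢ Icc 1 y, ((EE z i.1 : ℂ) * ((ArithmeticFunction.vonMangoldt i.2 : ℝ) : ℂ)) *
      ee ((((i.1 : ℤ) + h.eval (i.2 : ℤ) : ℤ) : ℝ) * β) = FF (EE z) N β * SLam h y β := by
    unfold FF SLam
    rw [Finset.sum_mul_sum, Finset.sum_product]
    apply Finset.sum_congr rfl
    intro n _
    apply Finset.sum_congr rfl
    intro t _
    simp only
    have e3 : (((n : ℤ) + h.eval (t : ℤ) : ℤ) : ℝ) * β = n * β + β * ((h.eval (t : ℤ) : ℤ) : ℝ) := by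
      push_cast
      ring
    rw [e3, ee_add]
    ring
  rw [e2, norm_mul]

/-- the domination -/
theorem domin_sp {h : ℤ[X]} {y C H Q₀ : ℕ} {v L : ℝ} (hL : 0 ≤ L)
    (hmin : ∀ θ : ℝ, y / v ≤ ‖SLam h y θ‖ → Near 2 y (v ^ C) θ)
    (htriv : ∀ θ : ℝ, ‖SLam h y θ‖ ≤ y * L) (hv : 0 < v) (hH : 1 ≤ H) (hy : 1 ≤ y)
    (hHQ : 6 * (H * v ^ C) ≤ (y : ℝ) ^ 2) (hQ₀ : v ^ C < Q₀ + 1) (β : ℝ) :
    ‖SLam h y β‖ ^ 2 ≤ ((y : ℝ) / v) ^ 2 + (y * L) ^ 2 * ((4 / (H : ℝ) ^ 2) * ∑ s ∈ Icc 1 Q₀, ∑ h ∈ range s,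
        ‖DH H (β - (h : ℝ) / (s : ℕ))‖ ^ 2) := by
  have hH0 : (0 : ℝ) < H := by exact_mod_cast hH
  have hy0 : (0 : ℝ) < y := by exact_mod_cast hy
  have hin2 : 0 ≤ ∑ s ∈ Icc 1 Q₀, ∑ h ∈ range s, ‖DH H (β - (h : ℝ) / (s : ℕ))‖ ^ 2 :=
    Finset.sum_nonneg fun _ _ => Finset.sum_nonneg fun _ _ => by positivity
  rcases lt_or_ge (‖SLam h y β‖) (y / v) with hc | hc
  · have h1 : ‖SLam h y β‖ ^ 2 ≤ ((y : ℝ) / v) ^ 2 := pow_le_pow_left₀ (norm_nonneg _) hc.le 2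
    have h5 : 0 ≤ (y * L) ^ 2 * ((4 / (H : ℝ) ^ 2) * ∑ s ∈ Icc 1 Q₀, ∑ h ∈ range s,
        ‖DH H (β - (h : ℝ) / (s : ℕ))‖ ^ 2) := by positivity
    linarith
  · obtain ⟨r, hr1, hrQ, k, hk⟩ := hmin β hc
    have hr0 : (0 : ℝ) < r := by exact_mod_cast hr1
    obtain ⟨h', hh'⟩ : ∃ h' : ℕ, h' = (k % (r : ℤ)).toNat := ⟨_, rfl⟩
    have hmod : (h' : ℤ) = k % (r : ℤ) := by
      rw [hh', Int.toNat_of_nonneg (Int.emod_nonneg _ (by omega))]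
    have hlt : h' < r := by
      have : (h' : ℤ) < r := by
        rw [hmod]
        exact Int.emod_lt_of_pos _ (by exact_mod_cast hr1)
      exact_mod_cast this
    have hdiv : k = h' + r * (k / (r : ℤ)) := by
      rw [hmod]
      exact (Int.emod_add_mul_ediv k r).symm
    have hclose : 6 * (H * |β - k / r|) ≤ 1 := by
      have h1 : β - k / r = (r * β - k) / r := by
        field_simp
      rw [h1, abs_div, abs_of_pos hr0]
      have h3 : |r * β - k| / r ≤ v ^ C / (y : ℝ) ^ 2 := by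
        refine (div_le_self (abs_nonneg _) ?_).trans hk
        exact_mod_cast hr1
      calc 6 * (H * (|r * β - k| / r)) ≤ 6 * (H * (v ^ C / (y : ℝ) ^ 2)) := by gcongr
        _ = (6 * (H * v ^ C)) / (y : ℝ) ^ 2 := by ring
        _ ≤ 1 := by rw [div_le_one (by positivity)]; exact hHQ
    have h2 := DH_lower hclose
    have h3 : DH H (β - k / r) = DH H (β - (h' : ℝ) / r) := by
      have e : β - (k : ℝ) / r = (β - (h' : ℝ) / r) - ((k / (r : ℤ) : ℤ) : ℝ) := by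
        have e2 : (k : ℝ) = h' + r * ((k / (r : ℤ) : ℤ) : ℝ) := by exact_mod_cast hdiv
        rw [e2]
        field_simp
        ring
      rw [e, DH_per]
    rw [h3] at h2
    have h4 : 1 ≤ (4 / (H : ℝ) ^ 2) * ‖DH H (β - (h' : ℝ) / r)‖ ^ 2 := by
      have h5 : ((H : ℝ) / 2) ^ 2 ≤ ‖DH H (β - (h' : ℝ) / r)‖ ^ 2 := pow_le_pow_left₀ (by positivity) h2 2
      calc (1 : ℝ) = (4 / (H : ℝ) ^ 2) * ((H : ℝ) / 2) ^ 2 := by field_simp; norm_num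
        _ ≤ _ := by gcongr
    have hrQ' : r ≤ Q₀ := by
      have : (r : ℝ) < Q₀ + 1 := lt_of_le_of_lt hrQ hQ₀
      have h6 : r < Q₀ + 1 := by exact_mod_cast this
      omega
    have h5 : ‖DH H (β - (h' : ℝ) / r)‖ ^ 2 ≤ ∑ s ∈ Icc 1 Q₀, ∑ h ∈ range s,
        ‖DH H (β - (h : ℝ) / (s : ℕ))‖ ^ 2 := by
      have a1 : ‖DH H (β - (h' : ℝ) / r)‖ ^ 2 ≤ ∑ h ∈ range r,
          ‖DH H (β - (h : ℝ) / (r : ℕ))‖ ^ 2 :=
        Finset.single_le_sum (f := fun h : ℕ => ‖DH H (β - (h : ℝ) / r)‖ ^ 2)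
          (fun _ _ => by positivity) (mem_range.2 hlt)
      refine a1.trans ?_
      exact Finset.single_le_sum (f := fun s : ℕ => ∑ h ∈ range s,
        ‖DH H (β - (h : ℝ) / (s : ℕ))‖ ^ 2)
        (fun _ _ => Finset.sum_nonneg fun _ _ => by positivity) (mem_Icc.2 ⟨hr1, hrQ'⟩)
    have h6 : ‖SLam h y β‖ ^ 2 ≤ (y * L) ^ 2 := pow_le_pow_left₀ (norm_nonneg _) (htriv β) 2
    have h7 : 1 ≤ (4 / (H : ℝ) ^ 2) * ∑ s ∈ Icc 1 Q₀, ∑ h ∈ range s,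
        ‖DH H (β - (h : ℝ) / (s : ℕ))‖ ^ 2 :=
      h4.trans (mul_le_mul_of_nonneg_left h5 (by positivity))
    have h8 : (y * L) ^ 2 ≤ (y * L) ^ 2 * ((4 / (H : ℝ) ^ 2) * ∑ s ∈ Icc 1 Q₀,
        ∑ h ∈ range s, ‖DH H (β - (h : ℝ) / (s : ℕ))‖ ^ 2) :=
      le_mul_of_one_le_right (by positivity) h7
    have h9 : 0 ≤ ((y : ℝ) / v) ^ 2 := by positivity
    linarith

/-- the integrated domination -/
theorem int_sp {h : ℤ[X]} {y C H Q₀ z N : ℕ} {v L : ℝ} (hL : 0 ≤ L)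
    (hmin : ∀ θ : ℝ, y / v ≤ ‖SLam h y θ‖ → Near 2 y (v ^ C) θ)
    (htriv : ∀ θ : ℝ, ‖SLam h y θ‖ ≤ y * L) (hv : 0 < v) (hH : 1 ≤ H) (hy : 1 ≤ y)
    (hHQ : 6 * (H * v ^ C) ≤ (y : ℝ) ^ 2) (hQ₀ : v ^ C < Q₀ + 1) (S : Finset ℤ) {M₁ M₂ : ℝ}
    (hM₁ : ∑ n ∈ Icc 1 N, (EE z n) ^ 2 ≤ M₁) (hM₂0 : 0 ≤ M₂)
    (hM₂ : ∀ s ∈ Icc 1 Q₀, ∀ c ∈ range s, ∑ m ∈ range (N + H + 1),
      |∑ n ∈ (Icc 1 N).filter (fun n => n < m ∧ m ≤ n + H ∧ n ≡ c [MOD s]), EE z n| ^ 2 ≤ M₂) :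
    ∑ n ∈ S, ‖cvl h (DZ z) y N n‖ ^ 2 ≤
      ((y : ℝ) / v) ^ 2 * M₁ + (y * L) ^ 2 * ((4 / (H : ℝ) ^ 2) * (Q₀ * ((Q₀ : ℝ) ^ 3 * M₂))) := by
  obtain ⟨G, hG⟩ : ∃ G : ℝ → ℝ, G = fun β => ∑ s ∈ Icc 1 Q₀, ∑ h ∈ range s,
        ‖DH H (β - (h : ℝ) / (s : ℕ))‖ ^ 2 := ⟨_, rfl⟩
  have hGc : Continuous G := by
    rw [hG]
    apply continuous_finsetSum
    intro s _
    apply continuous_finsetSum
    intro h _
    exact (DH_cont H _).norm.pow 2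
  have hFc : Continuous (fun β => ‖FF (EE z) N β‖ ^ 2) := (FF_cont (EE z) N).norm.pow 2
  have hVc : Continuous (fun β => ‖SLam h y β‖ ^ 2) := (SLam_cont h y).norm.pow 2
  refine (conv_sp h z y N S).trans ?_
  have s2 : ∫ β in (0 : ℝ)..1, ‖FF (EE z) N β‖ ^ 2 * ‖SLam h y β‖ ^ 2 ≤
      ∫ β in (0 : ℝ)..1, (((y : ℝ) / v) ^ 2 * ‖FF (EE z) N β‖ ^ 2 +
        (y * L) ^ 2 * (4 / (H : ℝ) ^ 2) * (‖FF (EE z) N β‖ ^ 2 * G β)) := by
    apply intervalIntegral.integral_mono_on (by norm_num)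
    · apply Continuous.intervalIntegrable
      exact hFc.mul hVc
    · apply Continuous.intervalIntegrable
      exact (hFc.const_mul _).add ((hFc.mul hGc).const_mul _)
    · intro β _
      have h1 := domin_sp hL hmin htriv hv hH hy hHQ hQ₀ β
      have h2 : 0 ≤ ‖FF (EE z) N β‖ ^ 2 := by positivity
      have h3 := mul_le_mul_of_nonneg_left h1 h2
      refine h3.trans (le_of_eq ?_)
      rw [hG]
      ring
  refine s2.trans ?_
  rw [intervalIntegral.integral_add, intervalIntegral.integral_const_mul,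
    intervalIntegral.integral_const_mul, FF_sq]
  rotate_left
  · exact (hFc.const_mul _).intervalIntegrable _ _
  · exact ((hFc.mul hGc).const_mul _).intervalIntegrable _ _
  apply add_le_add
  · exact mul_le_mul_of_nonneg_left hM₁ (by positivity)
  · rw [mul_assoc]
    apply mul_le_mul_of_nonneg_left _ (by positivity)
    apply mul_le_mul_of_nonneg_left _ (by positivity)
    have e2 : ∫ β in (0 : ℝ)..1, ‖FF (EE z) N β‖ ^ 2 * G β =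
        ∑ s ∈ Icc 1 Q₀, ∑ h ∈ range s,
          ∫ β in (0 : ℝ)..1, ‖FF (EE z) N β‖ ^ 2 * ‖DH H (β - (h : ℝ) / (s : ℕ))‖ ^ 2 := by
      have e3 : ∀ s ∈ Icc 1 Q₀, ∑ h ∈ range s,
          ∫ β in (0 : ℝ)..1, ‖FF (EE z) N β‖ ^ 2 * ‖DH H (β - (h : ℝ) / (s : ℕ))‖ ^ 2 =
          ∫ β in (0 : ℝ)..1, ∑ h ∈ range s,
            ‖FF (EE z) N β‖ ^ 2 * ‖DH H (β - (h : ℝ) / (s : ℕ))‖ ^ 2 := by
        intro s _
        rw [intervalIntegral.integral_finsetSum]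
        intro h _
        exact (hFc.mul ((DH_cont H _).norm.pow 2)).intervalIntegrable _ _
      rw [Finset.sum_congr rfl e3, ← intervalIntegral.integral_finsetSum]
      · apply intervalIntegral.integral_congr
        intro β _
        rw [hG]
        simp only
        rw [Finset.mul_sum]
        apply Finset.sum_congr rfl
        intro s _
        rw [Finset.mul_sum]
      · intro s _
        apply Continuous.intervalIntegrable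
        apply continuous_finsetSum
        intro h _
        exact hFc.mul ((DH_cont H _).norm.pow 2)
    rw [e2]
    have h1 : ∀ s ∈ Icc 1 Q₀, ∑ h ∈ range s,
          ∫ β in (0 : ℝ)..1, ‖FF (EE z) N β‖ ^ 2 * ‖DH H (β - (h : ℝ) / (s : ℕ))‖ ^ 2 ≤
        (Q₀ : ℝ) ^ 3 * M₂ := by
      intro r hs
      have hr1 : 1 ≤ r := (mem_Icc.1 hs).1
      have h3 : (r : ℝ) ≤ Q₀ := by exact_mod_cast (mem_Icc.1 hs).2
      have h2 : ∀ h ∈ range r, ∫ β in (0 : ℝ)..1, ‖FF (EE z) N β‖ ^ 2 * ‖DH H (β - (h : ℝ) / (r : ℕ))‖ ^ 2 ≤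
          r * (r * M₂) := by
        intro h _
        refine (win_int (EE z) N H ((h : ℝ) / r)).trans ?_
        refine (Finset.sum_le_sum fun m _ => win_class (EE z) N H m r h hr1).trans ?_
        rw [← Finset.mul_sum, Finset.sum_comm]
        apply mul_le_mul_of_nonneg_left _ (Nat.cast_nonneg _)
        refine (Finset.sum_le_sum (g := fun _ => M₂) fun c hc => ?_).trans ?_
        · exact hM₂ r hs c hc
        · rw [Finset.sum_const, card_range, nsmul_eq_mul]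
      refine (Finset.sum_le_sum h2).trans ?_
      rw [Finset.sum_const, card_range, nsmul_eq_mul]
      calc (r : ℝ) * (r * (r * M₂)) = (r : ℝ) ^ 3 * M₂ := by ring
        _ ≤ _ := by gcongr
    refine (Finset.sum_le_sum h1).trans ?_
    rw [Finset.sum_const, nsmul_eq_mul, Nat.card_Icc, Nat.add_sub_cancel]

/-- THE MEAN SQUARE -/
theorem ms_sp (h : ℤ[X]) (hd : h.natDegree = 2) (A : ℕ) : ∃ B₀ : ℕ, ∀ E : ℕ, ∃ D N₀ : ℕ,
    ∀ N : ℕ, N₀ ≤ N → ∀ z : ℕ, Real.log N ^ B₀ ≤ z → (z : ℝ) ≤ Real.log N ^ E →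
    ∀ y : ℕ, (N : ℝ) ^ (1 / 3 : ℝ) * Real.log N ^ D ≤ (y : ℝ) ^ 2 → y ^ 2 ≤ N → ∀ S : Finset ℤ,
    ∑ n ∈ S, ‖cvl h (DZ z) y N n‖ ^ 2 ≤ N * (y : ℝ) ^ 2 / Real.log N ^ A := by
  obtain ⟨C, N₁, hC1, hmin⟩ := minor_pow h (by omega)
  obtain ⟨K, hK⟩ : ∃ K : ℕ, K = A + 3 := ⟨_, rfl⟩
  obtain ⟨U, hU⟩ : ∃ U : ℕ, U = 4 * (K * C) + A + 4 := ⟨_, rfl⟩
  refine ⟨K * C, fun E => ?_⟩
  obtain ⟨C₂, N₂, htw⟩ := tw s_chr s_moc (K * C) E U
  obtain ⟨N₃, hVz⟩ := Vz_inv_small E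
  obtain ⟨A', hA'⟩ : ∃ A' : ℕ, A' = K * C + C₂ + 1 := ⟨_, rfl⟩
  obtain ⟨N₄, hN₄⟩ := ev_natlog (P := fun l => 100 ≤ l ∧ (N₁ : ℝ) ≤ l) (by
    filter_upwards [eventually_ge_atTop 100, eventually_ge_atTop (N₁ : ℝ)] with l h1 h2
    exact ⟨h1, h2⟩)
  refine ⟨A' + C₂ + 3 + 2 * (K * C), max (max N₂ N₃) (max N₄ 3), ?_⟩
  intro N hN z hz1 hz2 y hy1 hy2 S
  have hN2' : N₂ ≤ N := (le_max_left _ _).trans ((le_max_left _ _).trans hN)
  have hVz' := hVz N ((le_max_right _ _).trans ((le_max_left _ _).trans hN)) z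
  obtain ⟨g1, g2⟩ := hN₄ N ((le_max_left _ _).trans ((le_max_right _ _).trans hN))
  have hN3 : 3 ≤ N := (le_max_right _ _).trans ((le_max_right _ _).trans hN)
  have hN0 : (0 : ℝ) < N := by exact_mod_cast (by omega : 0 < N)
  have hN1 : (1 : ℝ) ≤ N := by exact_mod_cast (by omega : 1 ≤ N)
  obtain ⟨L, hL⟩ : ∃ L : ℝ, L = Real.log N := ⟨_, rfl⟩
  have hEE : ∀ n ∈ Icc 1 N, 1 ≤ z → |EE z n| ≤ L := by
    intro n hn hz
    rw [mem_Icc] at hn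
    rw [hL]
    exact EE_le (hVz' hz hz2) hn.1 hn.2
  rw [← hL] at g1 g2 hz1 hz2 hy1 ⊢
  have hL0 : 0 < L := by linarith
  have hL1 : 1 ≤ L := by linarith
  have hz1' : 1 ≤ z := by
    have : (1 : ℝ) ≤ z := (one_le_pow₀ hL1).trans hz1
    exact_mod_cast this
  have hN13 : (1 : ℝ) ≤ (N : ℝ) ^ (1 / 3 : ℝ) := Real.one_le_rpow hN1 (by norm_num)
  have hyL : L ^ (K * C + 1) ≤ y := by
    have h1 : (L ^ (K * C + 1)) ^ 2 ≤ (y : ℝ) ^ 2 := by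
      refine le_trans ?_ hy1
      calc (L ^ (K * C + 1)) ^ 2 = 1 * L ^ (2 * (K * C) + 2) := by rw [← pow_mul, one_mul]; congr 1; ring
        _ ≤ (N : ℝ) ^ (1 / 3 : ℝ) * L ^ (A' + C₂ + 3 + 2 * (K * C)) := by
            apply mul_le_mul hN13 _ (by positivity) (by positivity)
            exact pow_le_pow_right₀ hL1 (by omega)
    exact (pow_le_pow_iff_left₀ (by positivity) (Nat.cast_nonneg _) (by norm_num)).1 h1
  have hyL1 : L ≤ y := (le_self_pow₀ hL1 (by omega)).trans hyL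
  have hy1' : 1 ≤ y := by
    have : (1 : ℝ) ≤ y := by linarith
    exact_mod_cast this
  have hyN₁ : N₁ ≤ y := by
    have : (N₁ : ℝ) ≤ y := by linarith
    exact_mod_cast this
  have hyN : y ≤ N := (Nat.le_self_pow (by norm_num) y).trans hy2
  have hy2r : (y : ℝ) ^ 2 ≤ N := by exact_mod_cast hy2
  have hy0 : (0 : ℝ) < y := by linarith
  obtain ⟨v, hv⟩ : ∃ v : ℝ, v = L ^ K := ⟨_, rfl⟩
  have hvC : v ^ C = L ^ (K * C) := by rw [hv, ← pow_mul]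
  have hv0 : 0 < v := by rw [hv]; positivity
  have hmin' : ∀ θ : ℝ, y / v ≤ ‖SLam h y θ‖ → Near 2 y (v ^ C) θ := by
    intro θ hθ
    have := hmin y hyN₁ v (by
      rw [hv]
      refine le_trans ?_ (le_self_pow₀ hL1 (by omega : K ≠ 0))
      rw [hL]
      exact Real.log_le_log hy0 (by exact_mod_cast hyN)) (by
      rw [hvC]
      exact (pow_le_pow_right₀ hL1 (by omega)).trans hyL) θ hθ
    rwa [hd] at this
  obtain ⟨Q₀, hQ₀⟩ : ∃ Q₀ : ℕ, Q₀ = ⌊v ^ C⌋₊ := ⟨_, rfl⟩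
  have hQ₀1 : (Q₀ : ℝ) ≤ v ^ C := by rw [hQ₀]; exact Nat.floor_le (by positivity)
  have hQ₀2 : v ^ C < Q₀ + 1 := by rw [hQ₀]; exact Nat.lt_floor_add_one _
  obtain ⟨H, hH⟩ : ∃ H : ℕ, H = ⌊(y : ℝ) ^ 2 / L ^ A'⌋₊ := ⟨_, rfl⟩
  have hH1 : (H : ℝ) ≤ (y : ℝ) ^ 2 / L ^ A' := by rw [hH]; exact Nat.floor_le (by positivity)
  have hH2 : (y : ℝ) ^ 2 / L ^ A' < H + 1 := by rw [hH]; exact Nat.lt_floor_add_one _
  have hHlow : (N : ℝ) ^ (1 / 3 : ℝ) * L ^ C₂ ≤ H := by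
    have h1 : (N : ℝ) ^ (1 / 3 : ℝ) * L ^ (C₂ + 3 + 2 * (K * C)) ≤ (y : ℝ) ^ 2 / L ^ A' := by
      rw [le_div_iff₀ (by positivity)]
      refine le_trans (le_of_eq ?_) hy1
      ring
    have h3 : 1 ≤ (N : ℝ) ^ (1 / 3 : ℝ) * L ^ C₂ :=
      one_le_mul_of_one_le_of_one_le hN13 (one_le_pow₀ hL1)
    have h2 : (N : ℝ) ^ (1 / 3 : ℝ) * L ^ C₂ * 2 ≤ (N : ℝ) ^ (1 / 3 : ℝ) * L ^ (C₂ + 3 + 2 * (K * C)) := by
      have e : (N : ℝ) ^ (1 / 3 : ℝ) * L ^ (C₂ + 3 + 2 * (K * C)) =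
          (N : ℝ) ^ (1 / 3 : ℝ) * L ^ C₂ * L ^ (3 + 2 * (K * C)) := by ring
      rw [e]
      apply mul_le_mul_of_nonneg_left _ (by positivity)
      have : L ≤ L ^ (3 + 2 * (K * C)) := le_self_pow₀ hL1 (by omega)
      linarith
    linarith
  have hH1r : (1 : ℝ) ≤ H :=
    (one_le_mul_of_one_le_of_one_le hN13 (one_le_pow₀ hL1)).trans hHlow
  have hH1n : 1 ≤ H := by exact_mod_cast hH1r
  have hH0 : (0 : ℝ) < H := by linarith
  rw [le_div_iff₀ (by positivity)] at hH1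
  have hHup : (H : ℝ) * L ^ C₂ ≤ N := by
    refine le_trans ?_ (hH1.trans hy2r)
    apply mul_le_mul_of_nonneg_left _ hH0.le
    exact pow_le_pow_right₀ hL1 (by omega)
  have hHQ : 6 * (H * v ^ C) ≤ (y : ℝ) ^ 2 := by
    refine le_trans ?_ hH1
    rw [hvC]
    calc 6 * (H * L ^ (K * C)) = H * (L ^ (K * C) * 6) := by ring
      _ ≤ H * (L ^ (K * C) * L ^ (C₂ + 1)) := by
          apply mul_le_mul_of_nonneg_left _ hH0.le
          apply mul_le_mul_of_nonneg_left _ (by positivity)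
          have : L ≤ L ^ (C₂ + 1) := le_self_pow₀ hL1 (by omega)
          linarith
      _ = H * L ^ A' := by rw [hA', ← pow_add]; congr 1
  have hM₁ : ∑ n ∈ Icc 1 N, (EE z n) ^ 2 ≤ N * L ^ 2 := by
    calc ∑ n ∈ Icc 1 N, (EE z n) ^ 2 ≤ ∑ _n ∈ Icc 1 N, L ^ 2 := by
          apply Finset.sum_le_sum
          intro n hn
          rw [← sq_abs]
          exact pow_le_pow_left₀ (abs_nonneg _) (hEE n hn hz1') 2
      _ = N * L ^ 2 := by rw [sum_const, Nat.card_Icc, nsmul_eq_mul, Nat.add_sub_cancel]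
  have hM₂ : ∀ s ∈ Icc 1 Q₀, ∀ c ∈ range s, ∑ m ∈ range (N + H + 1),
      |∑ n ∈ (Icc 1 N).filter (fun n => n < m ∧ m ≤ n + H ∧ n ≡ c [MOD s]), EE z n| ^ 2 ≤
      N * (H : ℝ) ^ 2 / L ^ U := by
    intro s hs c _
    rw [mem_Icc] at hs
    have hsr : (s : ℝ) ≤ L ^ (K * C) := by
      rw [← hvC]
      exact le_trans (by exact_mod_cast hs.2) hQ₀1
    have h1 := htw N hN2' z s hs.1 (by rw [← hL]; exact hsr) (by exact_mod_cast hsr.trans hz1)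
      (by rw [← hL]; exact hz2) c H (by rw [← hL]; exact hHlow) (by rw [← hL]; exact hHup)
    rw [← hL] at h1
    exact h1
  have hmain := int_sp (z := z) (N := N) hL0.le hmin' (fun θ => by rw [hL]; exact SLam_triv h y N θ hyN) hv0 hH1n hy1'
    hHQ hQ₀2 S hM₁ (by positivity) hM₂
  refine hmain.trans ?_
  obtain ⟨W, hW⟩ : ∃ W : ℝ, W = N * (y : ℝ) ^ 2 / L ^ A := ⟨_, rfl⟩
  have hW0 : 0 ≤ W := by rw [hW]; positivity
  rw [← hW]
  have r1 : ((y : ℝ) / v) ^ 2 * (N * L ^ 2) ≤ 1 / 2 * W := by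
    have e1 : ((y : ℝ) / v) ^ 2 * (N * L ^ 2) = (1 / L ^ (A + 4)) * W := by
      rw [hW, hv, hK]
      have : L ^ (A + 3) = L ^ A * L ^ 3 := by ring
      rw [this, pow_add L A 4]
      field_simp
    rw [e1]
    apply mul_le_mul_of_nonneg_right _ hW0
    rw [div_le_div_iff₀ (by positivity) (by norm_num)]
    have : L ≤ L ^ (A + 4) := le_self_pow₀ hL1 (by omega)
    linarith
  have r2 : (y * L) ^ 2 * ((4 / (H : ℝ) ^ 2) * (Q₀ * ((Q₀ : ℝ) ^ 3 * (N * (H : ℝ) ^ 2 / L ^ U)))) ≤ 1 / 2 * W := by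
    have e1 : (y * L) ^ 2 * ((4 / (H : ℝ) ^ 2) * (Q₀ * ((Q₀ : ℝ) ^ 3 * (N * (H : ℝ) ^ 2 / L ^ U)))) =
        (4 * (Q₀ : ℝ) ^ 4 / (L ^ (4 * (K * C)) * L ^ 2)) * W := by
      rw [hW, hU, pow_add L (4 * (K * C) + A) 4, pow_add L (4 * (K * C)) A]
      field_simp
    rw [e1]
    apply mul_le_mul_of_nonneg_right _ hW0
    rw [div_le_div_iff₀ (by positivity) (by norm_num)]
    have h1 : (Q₀ : ℝ) ^ 4 ≤ L ^ (4 * (K * C)) := by
      calc (Q₀ : ℝ) ^ 4 ≤ (v ^ C) ^ 4 := pow_le_pow_left₀ (Nat.cast_nonneg _) hQ₀1 4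
        _ = L ^ (4 * (K * C)) := by rw [hvC, ← pow_mul]; congr 1; ring
    have h2 : 8 ≤ L ^ 2 := by nlinarith
    calc 4 * (Q₀ : ℝ) ^ 4 * 2 = (Q₀ : ℝ) ^ 4 * 8 := by ring
      _ ≤ L ^ (4 * (K * C)) * L ^ 2 := by gcongr
      _ = 1 * (L ^ (4 * (K * C)) * L ^ 2) := by ring
  linarith

end Pool.Agent.K9h19.SP
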